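import Pool.Agent.H52SZ.D
import Pool.Agent.H52SZ.E
import Pool.Agent.H141R2.FS.Main1
import Pool.Agent.H295R3.Hoheisel

set_option autoImplicit false

/-!
# Four squares and prime quadruples `p - 2 D, p, p + 4 D, p + 10 D`, the dilation `D` prescribed up to a factor
# at most a power of `log n`

Q1 asks for a representation `n = x² + y² + z² + w²` for which `p - 2`, `p`, `p + 4`, `p + 10` are primes,
`p = x + 2 y + 5 z`.

(4) There is an `R` such that for every `θ > 0` there is a `B` such that for EVERY large `n` not divisible by `4`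
and EVERY `1 ≤ m ≤ n ^ (1/2 - θ)` there are a representation and `1 ≤ d ≤ (log n) ^ B` such that, with `D = m d`,
all the four numbers `p - 2 D`, `p`, `p + 4 D`, `p + 10 D` are PRIMES; these four primes are values of
`x + 2 y + 5 z` at representations of `n`, and for each of them, call it `q`, the product
`(q - 2) (q + 4) (q + 10)` has at most `R` prime factors (so the four numbers `p - 2, p, p + 4, p + 10` of Q1 are
almost primes, too).

More generally, `F` is an arbitrary finite set of integers instead of `{-2, 0, 4, 10}`, and: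

(1) for all finite sets `E ∋ 0` of shifts, in all windows `(A, A + L]` between `√(29 n)` and `√(30 n)`, for all
`m ≤ L / n ^ θ` and all sets `S` of integers `q` in the window for which the numbers `q + e`, `e ∈ E`, have no
prime factor `≤ n ^ κ`: all `q ∈ S` are values, and all of them but `ε L / (log n) ^ |E|` have a
`d ≤ (log n) ^ B` with `q + m d F ⊆ S`;
(2) in all windows with `L ≥ n ^ (1/2 - δ)` at least `c L / log n` primes `p` have a `d ≤ (log n) ^ B` for which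
the `p + m d f`, `f ∈ F`, are primes in the window (so values);
(3) for `L ≥ δ √n` at least `c L / (log n) ^ 4` primes `p` of the window have almost prime `p - 2`, `p + 4`,
`p + 10` and a `d ≤ (log n) ^ B` such that the `p + m d f`, `f ∈ F`, are primes with the same properties.

Proof: Szemerédi's theorem relative to sifted sets (`Pool.Agent.Y843.HS.fin`, starting library) is applied to the
elements of `S` in one residue class modulo `m`, for the sieve without the prime factors of `m`; the number of the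
admissible classes is computed exactly, so that no factor `m / φ(m)` is lost. The lemma on the values of
`x + 2 y + 5 z` (`H141R2.FS`), the count of primes with almost prime companions (`Y879.PR`) and the primes in short
intervals (`H295R3`) are from the starting library.
-/

namespace Pool.Agent.Results.MP_40574a_nt.DilatedQuadruples

open Finset Filter

/-- `p` is the value of `x + 2 y + 5 z` at a representation of `n` as a sum of four squares of natural numbers -/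
def Val (n p : ℕ) : Prop :=
  ∃ x y z w : ℕ, n = x ^ 2 + y ^ 2 + z ^ 2 + w ^ 2 ∧ p = x + 2 * y + 5 * z

/-- the numbers `q + e`, `e ∈ E`, have no prime factor `≤ t` -/
def Rough (E : Finset ℤ) (t : ℝ) (q : ℕ) : Prop :=
  ∀ e ∈ E, ∀ l : ℕ, l.Prime → (l : ℝ) ≤ t → ¬ (l : ℤ) ∣ (q : ℤ) + e

/-- there is `1 ≤ d ≤ D` such that all the integers `q + m d f`, `f ∈ F`, are natural numbers with the
property `G` -/
def Copy (F : Finset ℤ) (m : ℕ) (D : ℝ) (G : ℕ → Prop) (q : ℕ) : Prop :=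
  ∃ d : ℕ, 1 ≤ d ∧ (d : ℝ) ≤ D ∧ ∀ f ∈ F, ∃ s : ℕ, G s ∧ (s : ℤ) = q + m * d * f

/-- `p` is a prime in `(A, A + L]` which is a value at a representation of `n` -/
def Pv (n A L p : ℕ) : Prop := p.Prime ∧ Val n p ∧ A < p ∧ p ≤ A + L

/-- `p` is a prime in `(A, A + L]` which is a value at a representation of `n`, none of `p - 2`, `p + 4`, `p + 10`
has a prime factor `≤ n ^ κ`, and their product has at most `R` prime factors, counted with multiplicity -/
def Av (n : ℕ) (κ : ℝ) (R A L p : ℕ) : Prop :=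
  Pv n A L p ∧ Rough {-2, 4, 10} ((n : ℝ) ^ κ) p ∧
    ((p - 2) * (p + 4) * (p + 10)).primeFactorsList.length ≤ R

/-- the values -/
lemma val_of {n A L q : ℕ} (h4 : ¬ 4 ∣ n) (hA : 29 * n ≤ A ^ 2) (hL : (A + L) ^ 2 ≤ 30 * n) (h1 : A < q)
    (h2 : q ≤ A + L) (hc : Nat.Coprime q 30) : Val n q := by
  obtain ⟨x, y, z, w, h3, h5⟩ := Pool.Agent.H141R2.FS.rep h4 hc
    (hA.trans (Nat.pow_le_pow_left h1.le 2)) ((Nat.pow_le_pow_left h2 2).trans hL)
  exact ⟨x, y, z, w, h3, h5.symm⟩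

lemma cop30 {q : ℕ} (h : ∀ l : ℕ, l.Prime → l ≤ 5 → ¬ l ∣ q) : Nat.Coprime q 30 := by
  rw [Nat.coprime_iff_gcd_eq_one]
  by_contra hne
  obtain ⟨l, hl, hl1, hl2⟩ := Nat.Prime.not_coprime_iff_dvd.1 hne
  refine h l hl ?_ hl1
  have h30 : l ∣ 2 * (3 * 5) := by simpa using hl2
  rcases (Nat.Prime.dvd_mul hl).1 h30 with h1 | h1
  · exact (Nat.le_of_dvd (by norm_num) h1).trans (by norm_num)
  · rcases (Nat.Prime.dvd_mul hl).1 h1 with h2 | h2
    · exact (Nat.le_of_dvd (by norm_num) h2).trans (by norm_num)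
    · exact Nat.le_of_dvd (by norm_num) h2

lemma val_prime {n A L q : ℕ} (hn : 30 ≤ n) (h4 : ¬ 4 ∣ n) (hA : 29 * n ≤ A ^ 2) (hL : (A + L) ^ 2 ≤ 30 * n)
    (h1 : A < q) (h2 : q ≤ A + L) (hq : q.Prime) : Val n q := by
  apply val_of h4 hA hL h1 h2
  apply cop30
  intro l hl hl5 hd
  have h3 := (Nat.prime_dvd_prime_iff_eq hl hq).1 hd
  have h5 : A < 5 := by omega
  have h6 : A ^ 2 < 5 ^ 2 := Nat.pow_lt_pow_left h5 (by norm_num)
  omega

lemma L_le {n A L : ℕ} (hn : 30 ≤ n) (hL : (A + L) ^ 2 ≤ 30 * n) : L ≤ n := by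
  by_contra hcon
  push Not at hcon
  have h0 : n < A + L := by omega
  have h1 : n * n < (A + L) ^ 2 := by
    rw [pow_two]
    exact Nat.mul_lt_mul'' h0 h0
  nlinarith

open Classical in
/-- the primes: all but few -/
lemma partP (F : Finset ℤ) (θ ε : ℝ) (hθ : 0 < θ) (hε : 0 < ε) : ∃ B : ℕ, ∀ᶠ n : ℕ in atTop, ¬ 4 ∣ n →
    ∀ A L m : ℕ, 29 * n ≤ A ^ 2 → (A + L) ^ 2 ≤ 30 * n → 1 ≤ m → (n : ℝ) ^ θ * m ≤ L →
    (((Ioc A (A + L)).filter (fun p => p.Prime ∧ ¬ Copy F m (Real.log n ^ B) (Pv n A L) p)).card : ℝ) ≤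
      ε * (L / Real.log n) := by
  obtain ⟨B, hB⟩ := Pool.Agent.H52SZ.dense {0} F θ (1 / 4) ε hθ (by norm_num) hε
  refine ⟨B, ?_⟩
  filter_upwards [hB, eventually_ge_atTop 30] with n hn hn30 h4 A L m hA hL hm hmL
  have hnR : (30 : ℝ) ≤ n := by exact_mod_cast hn30
  set S := (Ioc A (A + L)).filter Nat.Prime with hS
  have h1 := hn A L m hm hmL (L_le hn30 hL) S (filter_subset _ _) (by
    intro q hq e he l hl hln hd
    rw [mem_singleton] at he
    subst he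
    rw [add_zero, Int.natCast_dvd_natCast] at hd
    rw [hS, mem_filter, mem_Ioc] at hq
    have h3 := (Nat.prime_dvd_prime_iff_eq hl hq.2).1 hd
    have h5 : (n : ℝ) ^ (1 / 4 : ℝ) < l := by
      have h6 : √(n : ℝ) < l := by
        rw [Real.sqrt_lt' (by exact_mod_cast hl.pos)]
        have h7 : n < l ^ 2 := by
          have h8 : A ^ 2 ≤ l ^ 2 := Nat.pow_le_pow_left (by omega) 2
          omega
        exact_mod_cast h7
      refine lt_of_le_of_lt ?_ h6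
      rw [Real.sqrt_eq_rpow]
      exact Real.rpow_le_rpow_of_exponent_le (by linarith) (by norm_num)
    linarith)
  rw [card_singleton, pow_one] at h1
  refine le_trans ?_ h1
  apply Nat.cast_le.2
  apply card_le_card
  intro p hp
  rw [mem_filter] at hp
  rw [mem_filter, hS, mem_filter]
  refine ⟨⟨hp.1, hp.2.1⟩, fun hcopy => hp.2.2 ?_⟩
  obtain ⟨d, hd1, hd2, hd3⟩ := hcopy
  refine ⟨d, hd1, hd2, fun f hf => ?_⟩
  obtain ⟨s, hs, hse⟩ := hd3 f hf
  rw [mem_filter, mem_Ioc] at hs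
  exact ⟨s, ⟨hs.2, val_prime hn30 h4 hA hL hs.1.1 hs.1.2 hs.2, hs.1.1, hs.1.2⟩, hse⟩

open Classical in
/-- short windows -/
lemma part2 : ∃ δ c : ℝ, 0 < δ ∧ 0 < c ∧ ∀ (F : Finset ℤ) (θ : ℝ), 0 < θ → ∃ B : ℕ, ∀ᶠ n : ℕ in atTop, ¬ 4 ∣ n →
    ∀ A L m : ℕ, 29 * n ≤ A ^ 2 → (A + L) ^ 2 ≤ 30 * n → 1 ≤ m → (n : ℝ) ^ (1 / 2 - δ) ≤ L →
    (n : ℝ) ^ θ * m ≤ L → c * (L / Real.log n) ≤
    (((Ioc A (A + L)).filter (fun p => p.Prime ∧ Copy F m (Real.log n ^ B) (Pv n A L) p)).card : ℝ) := by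
  obtain ⟨δ, η, hδ, hδ1, hη, X₀, -, H⟩ := Pool.Agent.H295R3.D.hoheisel
  refine ⟨δ / 4, η / 2, by positivity, by positivity, fun F θ hθ => ?_⟩
  obtain ⟨B, hB⟩ := partP F θ (η / 2) hθ (by positivity)
  refine ⟨B, ?_⟩
  have t1 : Tendsto (fun n : ℕ => (n : ℝ) ^ (δ / 4)) atTop atTop :=
    (tendsto_rpow_atTop (by positivity)).comp tendsto_natCast_atTop_atTop
  filter_upwards [hB, eventually_ge_atTop 30, eventually_ge_atTop (X₀ ^ 2), t1.eventually_ge_atTop 6]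
    with n hn hn30 hnX hn6 h4 A L m hA hL hm hLn hmL
  have h1 := hn h4 A L m hA hL hm hmL
  have hnR : (30 : ℝ) ≤ n := by exact_mod_cast hn30
  have hAX : X₀ ≤ A := by
    by_contra hcon
    push Not at hcon
    have : A ^ 2 < X₀ ^ 2 := Nat.pow_lt_pow_left hcon (by norm_num)
    omega
  have hA0 : 0 < A := by
    rcases Nat.eq_zero_or_pos A with h | h
    · subst h; omega
    · exact h
  have hLA : L ≤ A := by
    by_contra hcon
    push Not at hcon
    have h2 : (2 * A) ^ 2 ≤ (A + L) ^ 2 := Nat.pow_le_pow_left (by omega) 2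
    have h3 : (2 * A) ^ 2 = 4 * A ^ 2 := by ring
    omega
  have hAs : (A : ℝ) ≤ 6 * (n : ℝ) ^ (1 / 2 : ℝ) := by
    rw [← Real.sqrt_eq_rpow]
    have h2 : A ^ 2 ≤ 30 * n := (Nat.pow_le_pow_left (Nat.le_add_right _ _) 2).trans hL
    have h3 : (A : ℝ) ^ 2 ≤ 30 * n := by exact_mod_cast h2
    apply (pow_le_pow_iff_left₀ (by positivity) (by positivity) two_ne_zero).1
    rw [mul_pow, Real.sq_sqrt (by linarith)]
    linarith
  have hAL : (A : ℝ) ^ (1 - δ) ≤ L := by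
    refine le_trans ?_ hLn
    calc (A : ℝ) ^ (1 - δ) ≤ (6 * (n : ℝ) ^ (1 / 2 : ℝ)) ^ (1 - δ) :=
          Real.rpow_le_rpow (Nat.cast_nonneg _) hAs (by linarith)
      _ = 6 ^ (1 - δ) * (n : ℝ) ^ (1 / 2 * (1 - δ)) := by
          rw [Real.mul_rpow (by norm_num) (by positivity), ← Real.rpow_mul (by linarith)]
      _ ≤ (n : ℝ) ^ (δ / 4) * (n : ℝ) ^ (1 / 2 * (1 - δ)) := by
          apply mul_le_mul_of_nonneg_right _ (by positivity)
          refine le_trans ?_ hn6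
          calc (6 : ℝ) ^ (1 - δ) ≤ 6 ^ (1 : ℝ) :=
                Real.rpow_le_rpow_of_exponent_le (by norm_num) (by linarith)
            _ = 6 := Real.rpow_one _
      _ = (n : ℝ) ^ (1 / 2 - δ / 4) := by
          rw [← Real.rpow_add (by linarith)]
          congr 1
          ring
  have h2 := H A L hAX hAL hLA
  have hlog : Real.log A ≤ Real.log n := by
    apply Real.log_le_log (by exact_mod_cast hA0)
    have h2 : A ≤ n := by
      have h2 : A ^ 2 ≤ 30 * n := (Nat.pow_le_pow_left (Nat.le_add_right _ _) 2).trans hL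
      by_contra hcon
      push Not at hcon
      nlinarith
    exact_mod_cast h2
  have hlogA : 0 < Real.log A := by
    apply Real.log_pos
    have : 1 < A := by
      by_contra hcon
      have : A = 1 := by omega
      subst this
      omega
    exact_mod_cast this
  have h3 : η * (L / Real.log n) ≤ (((Ioc A (A + L)).filter Nat.Prime).card : ℝ) := by
    refine le_trans ?_ h2
    rw [mul_div_assoc]
    apply mul_le_mul_of_nonneg_left _ hη.le
    exact div_le_div_of_nonneg_left (Nat.cast_nonneg _) hlogA hlog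
  have h4 : (((Ioc A (A + L)).filter Nat.Prime).card : ℝ) =
      (((Ioc A (A + L)).filter (fun p => p.Prime ∧ Copy F m (Real.log n ^ B) (Pv n A L) p)).card : ℝ) +
      (((Ioc A (A + L)).filter (fun p => p.Prime ∧ ¬ Copy F m (Real.log n ^ B) (Pv n A L) p)).card : ℝ) := by
    have h5 := card_filter_add_card_filter_not (s := (Ioc A (A + L)).filter Nat.Prime)
      (fun p => Copy F m (Real.log n ^ B) (Pv n A L) p)
    rw [filter_filter, filter_filter] at h5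
    exact_mod_cast h5.symm
  linarith

open Classical in
/-- primes with almost prime companions -/
lemma part3 (δ : ℝ) (hδ : 0 < δ) : ∃ κ : ℝ, 0 < κ ∧ ∃ (R : ℕ) (c : ℝ), 0 < c ∧ ∀ (F : Finset ℤ) (θ : ℝ), 0 < θ →
    ∃ B : ℕ, ∀ᶠ n : ℕ in atTop, ¬ 4 ∣ n →
    ∀ A L m : ℕ, 29 * n ≤ A ^ 2 → (A + L) ^ 2 ≤ 30 * n → 1 ≤ m → δ * √n ≤ L → (n : ℝ) ^ θ * m ≤ L →
    c * (L / Real.log n ^ 4) ≤ (((Ioc A (A + L)).filter (fun p => Av n κ R A L p ∧
      Copy F m (Real.log n ^ B) (Av n κ R A L) p)).card : ℝ) := by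
  obtain ⟨κ, hκ, R, c, hc, H⟩ := Pool.Agent.H52SZ.lowQ δ hδ
  refine ⟨κ, hκ, R, c / 2, by positivity, fun F θ hθ => ?_⟩
  obtain ⟨B, hB⟩ := Pool.Agent.H52SZ.dense Pool.Agent.H52SZ.E4 F θ κ (c / 2) hθ hκ (by positivity)
  refine ⟨B, ?_⟩
  filter_upwards [H, hB, eventually_ge_atTop 30] with n hn1 hn2 hn30 h4 A L m hA hL hm hδL hmL
  set S := (Ioc A (A + L)).filter (fun p => Pool.Agent.H52SZ.Q4 ((n : ℝ) ^ κ) R p) with hS
  have hSv : ∀ p ∈ S, Av n κ R A L p := by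
    intro p hp
    rw [hS, mem_filter, mem_Ioc] at hp
    obtain ⟨⟨h1, h2⟩, h3, h5, h6⟩ := hp
    refine ⟨⟨h3, val_prime hn30 h4 hA hL h1 h2 h3, h1, h2⟩, ?_, h6⟩
    intro e he
    apply h5 e
    unfold Pool.Agent.H52SZ.E4
    simp only [mem_insert, mem_singleton] at he ⊢
    tauto
  have h1 := hn1 A L hA hL hδL
  have h2 := hn2 A L m hm hmL (L_le hn30 hL) S (filter_subset _ _) (by
    intro q hq
    rw [hS, mem_filter] at hq
    exact hq.2.2.1)
  have hE : Pool.Agent.H52SZ.E4.card = 4 := by decide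
  rw [hE] at h2
  have h3 : (S.card : ℝ) = ((S.filter (fun q => Pool.Agent.H52SZ.Copy F m (Real.log n ^ B) S q)).card : ℝ) +
      ((S.filter (fun q => ¬ Pool.Agent.H52SZ.Copy F m (Real.log n ^ B) S q)).card : ℝ) := by
    have h5 := card_filter_add_card_filter_not (s := S)
      (fun q => Pool.Agent.H52SZ.Copy F m (Real.log n ^ B) S q)
    exact_mod_cast h5.symm
  have h5 : ((S.filter (fun q => Pool.Agent.H52SZ.Copy F m (Real.log n ^ B) S q)).card : ℝ) ≤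
      (((Ioc A (A + L)).filter (fun p => Av n κ R A L p ∧
        Copy F m (Real.log n ^ B) (Av n κ R A L) p)).card : ℝ) := by
    apply Nat.cast_le.2
    apply card_le_card
    intro p hp
    rw [mem_filter] at hp
    rw [mem_filter]
    refine ⟨(mem_filter.1 hp.1).1, hSv p hp.1, ?_⟩
    obtain ⟨d, hd1, hd2, hd3⟩ := hp.2
    refine ⟨d, hd1, hd2, fun f hf => ?_⟩
    obtain ⟨s, hs, hse⟩ := hd3 f hf
    exact ⟨s, hSv s hs, hse⟩
  linarith

/-- a window -/
lemma window (n : ℕ) (hn : 1000000 ≤ n) : ∃ A L : ℕ, 29 * n ≤ A ^ 2 ∧ (A + L) ^ 2 ≤ 30 * n ∧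
    (1 / 20 : ℝ) * √n ≤ L := by
  have hnR : (1000000 : ℝ) ≤ n := by exact_mod_cast hn
  set s := √(n : ℝ) with hs
  have hs0 : 1000 ≤ s := by
    rw [hs]
    apply Real.le_sqrt_of_sq_le
    have h1 : (1000 : ℝ) ^ 2 = 1000000 := by norm_num
    rw [h1]
    exact hnR
  have hss : s * s = n := Real.mul_self_sqrt (by linarith)
  refine ⟨⌈(5386 / 1000 : ℝ) * s⌉₊, ⌊(5477 / 1000 : ℝ) * s⌋₊ - ⌈(5386 / 1000 : ℝ) * s⌉₊, ?_, ?_, ?_⟩
  · have h1 := Nat.le_ceil ((5386 / 1000 : ℝ) * s)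
    have h2 : ((5386 / 1000 : ℝ) * s) ^ 2 ≤ (⌈(5386 / 1000 : ℝ) * s⌉₊ : ℝ) ^ 2 :=
      pow_le_pow_left₀ (by positivity) h1 2
    have h3 : (29 : ℝ) * n ≤ (⌈(5386 / 1000 : ℝ) * s⌉₊ : ℝ) ^ 2 := by
      refine le_trans ?_ h2
      rw [mul_pow, pow_two s, hss]
      nlinarith
    exact_mod_cast h3
  · have h0 : ⌈(5386 / 1000 : ℝ) * s⌉₊ ≤ ⌊(5477 / 1000 : ℝ) * s⌋₊ := by
      apply Nat.le_floor
      have := Nat.ceil_lt_add_one (show 0 ≤ (5386 / 1000 : ℝ) * s by positivity)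
      linarith
    rw [Nat.add_sub_cancel' h0]
    have h1 := Nat.floor_le (show 0 ≤ (5477 / 1000 : ℝ) * s by positivity)
    have h2 : (⌊(5477 / 1000 : ℝ) * s⌋₊ : ℝ) ^ 2 ≤ ((5477 / 1000 : ℝ) * s) ^ 2 :=
      pow_le_pow_left₀ (Nat.cast_nonneg _) h1 2
    have h3 : (⌊(5477 / 1000 : ℝ) * s⌋₊ : ℝ) ^ 2 ≤ 30 * n := by
      refine h2.trans ?_
      rw [mul_pow, pow_two s, hss]
      nlinarith
    exact_mod_cast h3
  · have h0 : ⌈(5386 / 1000 : ℝ) * s⌉₊ ≤ ⌊(5477 / 1000 : ℝ) * s⌋₊ := by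
      apply Nat.le_floor
      have := Nat.ceil_lt_add_one (show 0 ≤ (5386 / 1000 : ℝ) * s by positivity)
      linarith
    rw [Nat.cast_sub h0]
    have h1 := Nat.ceil_lt_add_one (show 0 ≤ (5386 / 1000 : ℝ) * s by positivity)
    have h2 := Nat.lt_floor_add_one ((5477 / 1000 : ℝ) * s)
    linarith

open Classical in
/-- **Dilated prime quadruples for every large integer.** -/
theorem result :
    -- (1) arbitrary sets of values
    (∀ E F : Finset ℤ, 0 ∈ E → ∀ θ κ ε : ℝ, 0 < θ → 0 < κ → 0 < ε → ∃ B : ℕ, ∀ᶠ n : ℕ in atTop, ¬ 4 ∣ n →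
      ∀ A L m : ℕ, 29 * n ≤ A ^ 2 → (A + L) ^ 2 ≤ 30 * n → 1 ≤ m → (n : ℝ) ^ θ * m ≤ L →
      ∀ S : Finset ℕ, S ⊆ Ioc A (A + L) → (∀ q ∈ S, Rough E ((n : ℝ) ^ κ) q) →
        (∀ q ∈ S, Val n q) ∧
        ((S.filter (fun q => ¬ Copy F m (Real.log n ^ B) (fun s => s ∈ S) q)).card : ℝ) ≤
          ε * (L / Real.log n ^ E.card)) ∧
    -- (2) primes in short windows
    (∃ δ c : ℝ, 0 < δ ∧ 0 < c ∧ ∀ (F : Finset ℤ) (θ : ℝ), 0 < θ → ∃ B : ℕ, ∀ᶠ n : ℕ in atTop, ¬ 4 ∣ n →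
      ∀ A L m : ℕ, 29 * n ≤ A ^ 2 → (A + L) ^ 2 ≤ 30 * n → 1 ≤ m → (n : ℝ) ^ (1 / 2 - δ) ≤ L →
      (n : ℝ) ^ θ * m ≤ L → c * (L / Real.log n) ≤
      (((Ioc A (A + L)).filter (fun p => p.Prime ∧ Copy F m (Real.log n ^ B) (Pv n A L) p)).card : ℝ)) ∧
    -- (3) primes with almost prime companions
    (∀ δ : ℝ, 0 < δ → ∃ κ : ℝ, 0 < κ ∧ ∃ (R : ℕ) (c : ℝ), 0 < c ∧ ∀ (F : Finset ℤ) (θ : ℝ), 0 < θ →
      ∃ B : ℕ, ∀ᶠ n : ℕ in atTop, ¬ 4 ∣ n →
      ∀ A L m : ℕ, 29 * n ≤ A ^ 2 → (A + L) ^ 2 ≤ 30 * n → 1 ≤ m → δ * √n ≤ L → (n : ℝ) ^ θ * m ≤ L →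
      c * (L / Real.log n ^ 4) ≤ (((Ioc A (A + L)).filter (fun p => Av n κ R A L p ∧
        Copy F m (Real.log n ^ B) (Av n κ R A L) p)).card : ℝ)) ∧
    -- (4) the quadruples
    (∃ R : ℕ, ∀ θ : ℝ, 0 < θ → ∃ B : ℕ, ∀ᶠ n : ℕ in atTop, ¬ 4 ∣ n → ∀ m : ℕ, 1 ≤ m →
      (m : ℝ) ≤ (n : ℝ) ^ (1 / 2 - θ) → ∃ x y z w p d : ℕ, n = x ^ 2 + y ^ 2 + z ^ 2 + w ^ 2 ∧
        p = x + 2 * y + 5 * z ∧ 1 ≤ d ∧ (d : ℝ) ≤ Real.log n ^ B ∧ 2 * (m * d) < p ∧
        ∀ q ∈ ({p - 2 * (m * d), p, p + 4 * (m * d), p + 10 * (m * d)} : Finset ℕ),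
          q.Prime ∧ Val n q ∧ 29 * n ≤ q ^ 2 ∧ q ^ 2 ≤ 30 * n ∧
            ((q - 2) * (q + 4) * (q + 10)).primeFactorsList.length ≤ R) := by
  refine ⟨?_, part2, part3, ?_⟩
  · intro E F hE θ κ ε hθ hκ hε
    obtain ⟨B, hB⟩ := Pool.Agent.H52SZ.dense E F θ κ ε hθ hκ hε
    refine ⟨B, ?_⟩
    have t1 : Tendsto (fun n : ℕ => (n : ℝ) ^ κ) atTop atTop :=
      (tendsto_rpow_atTop hκ).comp tendsto_natCast_atTop_atTop
    filter_upwards [hB, eventually_ge_atTop 30, t1.eventually_ge_atTop 5]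
      with n hn hn30 hn5 h4 A L m hA hL hm hmL S hSA hS
    refine ⟨fun q hq => ?_, hn A L m hm hmL (L_le hn30 hL) S hSA hS⟩
    have h1 := mem_Ioc.1 (hSA hq)
    apply val_of h4 hA hL h1.1 h1.2
    apply cop30
    intro l hl hl5 hd
    have hl5' : (l : ℝ) ≤ 5 := by exact_mod_cast hl5
    apply hS q hq 0 hE l hl (hl5'.trans hn5)
    rw [add_zero]
    exact_mod_cast hd
  · obtain ⟨κ, hκ, R, c, hc, H⟩ := part3 (1 / 20) (by norm_num)
    refine ⟨R, fun θ hθ => ?_⟩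
    obtain ⟨B, hB⟩ := H {-2, 0, 4, 10} (θ / 2) (by positivity)
    refine ⟨B, ?_⟩
    have t1 : Tendsto (fun n : ℕ => (n : ℝ) ^ (θ / 2)) atTop atTop :=
      (tendsto_rpow_atTop (by positivity)).comp tendsto_natCast_atTop_atTop
    filter_upwards [hB, eventually_ge_atTop 1000000, t1.eventually_ge_atTop 20] with n hn hn1 hn20 h4 m hm hmn
    have hnR : (1000000 : ℝ) ≤ n := by exact_mod_cast hn1
    have hn0 : (0 : ℝ) < n := by linarith
    obtain ⟨A, L, hA, hL, hLs⟩ := window n hn1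
    have hmL : (n : ℝ) ^ (θ / 2) * m ≤ L := by
      refine le_trans ?_ hLs
      have h1 : (n : ℝ) ^ (θ / 2) * ((n : ℝ) ^ (θ / 2) * m) ≤ √n := by
        calc (n : ℝ) ^ (θ / 2) * ((n : ℝ) ^ (θ / 2) * m)
            ≤ (n : ℝ) ^ (θ / 2) * ((n : ℝ) ^ (θ / 2) * (n : ℝ) ^ (1 / 2 - θ)) := by gcongr
          _ = √n := by
              rw [← Real.rpow_add hn0, ← Real.rpow_add hn0, Real.sqrt_eq_rpow]
              congr 1
              ring
      have h2 : 0 ≤ (n : ℝ) ^ (θ / 2) * m := by positivity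
      nlinarith
    have h1 := hn h4 A L m hA hL hm hLs hmL
    have hlog : 0 < Real.log n := Real.log_pos (by linarith)
    have hs0 : 0 < √(n : ℝ) := Real.sqrt_pos.2 hn0
    have hL0 : (0 : ℝ) < L := lt_of_lt_of_le (by positivity) hLs
    have h2 : (0 : ℝ) < c * (L / Real.log n ^ 4) := by positivity
    have h3 := h2.trans_le h1
    rw [Nat.cast_pos, card_pos] at h3
    obtain ⟨p, hp⟩ := h3
    rw [mem_filter] at hp
    obtain ⟨-, hAv, d, hd1, hd2, hd3⟩ := hp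
    obtain ⟨x, y, z, w, h5, h6⟩ := hAv.1.2.1
    have hgood : ∀ q : ℕ, Av n κ R A L q → q.Prime ∧ Val n q ∧ 29 * n ≤ q ^ 2 ∧ q ^ 2 ≤ 30 * n ∧
        ((q - 2) * (q + 4) * (q + 10)).primeFactorsList.length ≤ R :=
      fun q hq => ⟨hq.1.1, hq.1.2.1, hA.trans (Nat.pow_le_pow_left hq.1.2.2.1.le 2),
        (Nat.pow_le_pow_left hq.1.2.2.2 2).trans hL, hq.2.2⟩
    obtain ⟨s0, hs0', hs0e⟩ := hd3 (-2) (by simp)
    obtain ⟨s1, hs1, hs1e⟩ := hd3 4 (by simp)
    obtain ⟨s2, hs2, hs2e⟩ := hd3 10 (by simp)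
    have e0 : p = s0 + 2 * (m * d) := by
      have : (p : ℤ) = s0 + 2 * (m * d) := by rw [hs0e]; ring
      exact_mod_cast this
    have e1 : s1 = p + 4 * (m * d) := by
      have : (s1 : ℤ) = p + 4 * (m * d) := by rw [hs1e]; ring
      exact_mod_cast this
    have e2 : s2 = p + 10 * (m * d) := by
      have : (s2 : ℤ) = p + 10 * (m * d) := by rw [hs2e]; ring
      exact_mod_cast this
    have e3 : p - 2 * (m * d) = s0 := by omega
    refine ⟨x, y, z, w, p, d, h5, h6, hd1, hd2, ?_, ?_⟩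
    · have := hs0'.1.1.pos
      omega
    · intro q hq
      simp only [mem_insert, mem_singleton] at hq
      rcases hq with rfl | rfl | rfl | rfl
      · rw [e3]; exact hgood _ hs0'
      · exact hgood _ hAv
      · rw [← e1]; exact hgood _ hs1
      · rw [← e2]; exact hgood _ hs2

end Pool.Agent.Results.MP_40574a_nt.DilatedQuadruples
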