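import Pool.Agent.N384.MQ.MultV
import Pool.Agent.N384.MQ.Quot
import Pool.Agent.H46FF.Geo
import Pool.Agent.H141R2.FS.Main1

/-!
# EVERY large `n`, `4 ∤ n`: four squares whose linear form starts a prime tuple, with shifts near arbitrary sets of residues
# with small Fourier coefficients, and all their multiples by small integers

`n = x² + y² + z² + w²`, `p = x + 2 y + 5 z`, and `p`, `p + h_1 r_1, …, p + h_s r_s` are primes.

From Mathlib: `ZMod.stdAddChar`: the additive character `j ↦ exp (2 π i j / M)` of the integers modulo `M`; `ZMod.val`: the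
least residue; `orderOf`: the order of an element of a monoid (`0` if it is not of finite order).

Method: a family of residues modulo `M` with small Fourier coefficients has small exponential sums at all real frequencies
which are not close to integers, and the prime tuples whose shifts are multiples of integers near the members of such
families can be counted (library: `Pool.Agent.N384.MQ.mq_tuplesT`, which rests on `Pool.Agent.N625.PT`). Every `p` coprime to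
`30` in the window is represented (starting files, `Pool.Agent.H141R2.FS.rep`). Examples: geometric progressions by a
theorem of Bourgain, Glibichuk and Konyagin, extended by Bourgain and Chang to products of few primes (library:
`Pool.Agent.H82.BC`), and a lemma of Ajtai, Iwaniec, Komlos, Pintz and Szemeredi on quotients by small primes (library:
`Pool.Agent.N384.MQ.Quot`).
-/

set_option autoImplicit false

namespace Pool.Agent.Results.MP_40574a_nt.FourierFlatQuadruples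

open Finset

/-- The Fourier coefficients of the residues `y j`, `j ∈ S`, modulo `M` at the nonzero frequencies are at most
`η` times the number of the residues: `|∑ j ∈ S, e(h y_j / M)| ≤ η |S|` for all `h ≠ 0` modulo `M`. -/
def Flat {ι : Type} (M : ℕ) [NeZero M] (η : ℝ) (S : Finset ι) (y : ι → ZMod M) : Prop :=
  ∀ h : ZMod M, h ≠ 0 → ‖∑ j ∈ S, (ZMod.stdAddChar (h * y j) : ℂ)‖ ≤ η * S.card

/-- The number of the residues `r` modulo `ℓ` for which `ℓ` divides `r (r + a_1) ... (r + a_s)`, for primes `ℓ`. -/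
def nu {s : ℕ} (a : Fin s → ℕ) (ℓ : ℕ) : ℕ := ((range ℓ).filter (fun r => ℓ ∣ r ∨ ∃ i, ℓ ∣ r + a i)).card

/-- The partial product of the singular series of Hardy and Littlewood over the primes `ℓ ≤ z`. -/
noncomputable def sing {s : ℕ} (a : Fin s → ℕ) (z : ℕ) : ℝ :=
  ∏ ℓ ∈ (Icc 1 z).filter Nat.Prime, (1 - (nu a ℓ : ℝ) / ℓ) / (1 - 1 / (ℓ : ℝ)) ^ (s + 1)

/-- No prime `ℓ` divides `r (r + a_1) ... (r + a_s)` for all `r`. -/
def Admissible {s : ℕ} (a : Fin s → ℕ) : Prop := ∀ ℓ : ℕ, ℓ.Prime → ∃ r : ℕ, ¬ ℓ ∣ r ∧ ∀ i, ¬ ℓ ∣ r + a i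

open Classical in
/-- The number of the primes `p` with `29 n ≤ p² ≤ 30 n` which have the form `p = x + 2 y + 5 z` for a representation
`n = x² + y² + z² + w²` with natural numbers, and for which all the `p + a_i` are primes. -/
noncomputable def count {s : ℕ} (n : ℕ) (a : Fin s → ℕ) : ℕ :=
  ((range (30 * n + 1)).filter (fun p : ℕ => 29 * n ≤ p ^ 2 ∧ p ^ 2 ≤ 30 * n ∧ p.Prime ∧ (∀ i, (p + a i).Prime) ∧
    ∃ x y z w : ℕ, n = x ^ 2 + y ^ 2 + z ^ 2 + w ^ 2 ∧ p = x + 2 * y + 5 * z)).card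

/-- The formula of Hardy and Littlewood with a relative error of at most `ε`: the singular series converges to some `S`, and
if the shifts are admissible then `S > 0` and the number of the represented prime tuples is
`S (√(30 n) - √(29 n)) / log ^ (s + 1) √n` up to the fraction `ε`. -/
def Formula {s : ℕ} (ε : ℝ) (n : ℕ) (a : Fin s → ℕ) : Prop :=
  ∃ S : ℝ, Filter.Tendsto (sing a) Filter.atTop (nhds S) ∧ (Admissible a → 0 < S ∧
    |(count n a : ℝ) - S * ((√(30 * (n : ℝ)) - √(29 * (n : ℝ))) / Real.log √(n : ℝ) ^ (s + 1))| ≤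
      ε * (S * ((√(30 * (n : ℝ)) - √(29 * (n : ℝ))) / Real.log √(n : ℝ) ^ (s + 1))))

/-- For ALL the integers `r_i ≥ 0` within `log ^ W n` of `c_i + κ_i v_i` and ALL integers `1 ≤ h_i ≤ log ^ J n` the formula
holds for the shifts `h_i r_i`. -/
def Good {s : ℕ} (κ : Fin s → ℤ) (J W : ℕ) (ε : ℝ) (n : ℕ) (c : Fin s → ℤ) (v : Fin s → ℕ) : Prop :=
  ∀ r : Fin s → ℕ, (∀ i, |(r i : ℝ) - (c i + κ i * v i)| ≤ Real.log n ^ W) →
    ∀ h : Fin s → ℕ, (∀ i, 1 ≤ h i ∧ (h i : ℝ) ≤ Real.log n ^ J) → Formula ε n (fun i => h i * r i)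

/-- The moduli (and the numbers `c_i`) have the size of `√n` up to powers of `log n`: `√n / log ^ a n ≤ M_i` and
`M_i, |c_i| ≤ √n / log ^ (J + 3) n`. -/
def Sizes {s : ℕ} (J a n : ℕ) (M : Fin s → ℕ) (c : Fin s → ℤ) : Prop :=
  ∀ i, √(n : ℝ) ≤ M i * Real.log n ^ a ∧ (M i : ℝ) * Real.log n ^ (J + 3) ≤ √(n : ℝ) ∧
    |(c i : ℝ)| * Real.log n ^ (J + 3) ≤ √(n : ℝ)

/-! ### the singular series of the starting files -/

open Pool.Agent.W93.TD (HLs)

lemma nu_eq {s : ℕ} (a : Fin s → ℕ) (ℓ : ℕ) : Pool.Agent.H373R2.T7.nuP (fun i => (a i : ℤ)) ℓ = nu a ℓ := by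
  unfold Pool.Agent.H373R2.T7.nuP nu
  congr 1
  apply filter_congr
  intro r _
  have : ∀ i, ((ℓ : ℤ) ∣ (r : ℤ) + (a i : ℤ)) ↔ ℓ ∣ r + a i := fun i => by
    rw [← Nat.cast_add]
    exact Int.natCast_dvd_natCast
  simp only [this]

lemma sing_eq {s : ℕ} (a : Fin s → ℕ) : Pool.Agent.H373R2.T7.singZ (fun i => (a i : ℤ)) = sing a := by
  funext z
  unfold Pool.Agent.H373R2.T7.singZ sing
  simp only [nu_eq]

lemma adm_of {s : ℕ} (a : Fin s → ℕ) (h : Admissible a) : Pool.Agent.H373R2.T7.Admissible (fun i => (a i : ℤ)) := by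
  intro ℓ hℓ
  obtain ⟨r, h1, h2⟩ := h ℓ hℓ
  refine ⟨(r : ℤ), fun h3 => h1 (by exact_mod_cast h3), fun i h3 => h2 i ?_⟩
  have h3' : (ℓ : ℤ) ∣ (r : ℤ) + (a i : ℤ) := h3
  rw [← Nat.cast_add] at h3'
  exact Int.natCast_dvd_natCast.1 h3'

/-! ### the main term -/

lemma main_term (m : ℕ) (κ δ : ℝ) (h2 : 2 ≤ κ) (h6 : κ ≤ 6) (hδ : 0 < δ) : ∃ T : ℝ, ∀ u x : ℝ, T ≤ u → |x - κ * u| ≤ 2 →
    |x / Real.log x ^ m - κ * (u / Real.log u ^ m)| ≤ δ * (u / Real.log u ^ m) := by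
  obtain ⟨T₁, hT₁⟩ := Filter.eventually_atTop.mp (Real.tendsto_log_atTop.eventually_ge_atTop (1 + 72 * m / δ))
  refine ⟨max (max T₁ 2) (4 / δ), fun u x hu hx => ?_⟩
  have hu1 : T₁ ≤ u := (le_max_left _ _).trans ((le_max_left _ _).trans hu)
  have hu2 : 2 ≤ u := (le_max_right _ _).trans ((le_max_left _ _).trans hu)
  have hu3 : 4 / δ ≤ u := (le_max_right _ _).trans hu
  have hL := hT₁ u hu1
  obtain ⟨L, hLdef⟩ : ∃ L, L = Real.log u := ⟨_, rfl⟩
  rw [← hLdef] at hL ⊢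
  have hm0 : (0 : ℝ) ≤ m := Nat.cast_nonneg m
  have hL1 : 1 ≤ L := by
    have : 0 ≤ 72 * (m : ℝ) / δ := by positivity
    linarith
  have hLm : 72 * m / δ ≤ L := by linarith
  have hL0 : 0 < L := by linarith
  have hx' := hx
  rw [abs_le] at hx
  have hku : 2 * u ≤ κ * u := mul_le_mul_of_nonneg_right h2 (by linarith)
  have hku' : κ * u ≤ 6 * u := mul_le_mul_of_nonneg_right h6 (by linarith)
  have hxu : u ≤ x := by linarith
  have hx7 : x ≤ 7 * u := by linarith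
  have hx0 : 0 < x := by linarith
  have hlx1 : L ≤ Real.log x := by rw [hLdef]; exact Real.log_le_log (by linarith) hxu
  have hlx2 : Real.log x ≤ L + 6 := by
    have e1 : Real.log x ≤ Real.log (7 * u) := Real.log_le_log hx0 hx7
    rw [Real.log_mul (by norm_num) (by linarith)] at e1
    have e2 : Real.log 7 ≤ 7 - 1 := Real.log_le_sub_one_of_pos (by norm_num)
    linarith
  have hlx0 : 0 < Real.log x := by linarith
  obtain ⟨ρ, hρ⟩ : ∃ ρ, ρ = L / Real.log x := ⟨_, rfl⟩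
  have hρ0 : 0 < ρ := by rw [hρ]; positivity
  have hρ1 : ρ ≤ 1 := by rw [hρ, div_le_one hlx0]; exact hlx1
  have hρ2 : 1 - ρ ≤ 6 / L := by
    have e1 : 1 - ρ = (Real.log x - L) / Real.log x := by
      rw [hρ]
      field_simp
    rw [e1, div_le_div_iff₀ hlx0 hL0]
    calc (Real.log x - L) * L ≤ 6 * L := mul_le_mul_of_nonneg_right (by linarith) hL0.le
      _ ≤ 6 * Real.log x := by linarith
  have hb := one_add_mul_le_pow (a := ρ - 1) (by linarith) m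
  have e0 : (1 + (ρ - 1)) = ρ := by ring
  rw [e0] at hb
  have hρm : 1 - ρ ^ m ≤ m * (6 / L) := by
    have : (m : ℝ) * (1 - ρ) ≤ m * (6 / L) := mul_le_mul_of_nonneg_left hρ2 hm0
    linarith
  have hρm1 : ρ ^ m ≤ 1 := pow_le_one₀ hρ0.le hρ1
  have hρm0 : 0 ≤ ρ ^ m := by positivity
  have ex : x / Real.log x ^ m = x * ρ ^ m / L ^ m := by
    rw [hρ, div_pow]
    field_simp
  have e3 : x / Real.log x ^ m - κ * (u / L ^ m) = (x * ρ ^ m - κ * u) / L ^ m := by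
    rw [ex]
    ring
  have e4 : δ * (u / L ^ m) = δ * u / L ^ m := by ring
  rw [e3, e4, abs_div, abs_of_pos (by positivity : (0 : ℝ) < L ^ m)]
  apply div_le_div_of_nonneg_right _ (by positivity)
  have h4 : 4 ≤ δ * u := by
    rw [div_le_iff₀ hδ] at hu3
    linarith
  have h5 : (m : ℝ) * (6 / L) * (6 * u) ≤ δ * u / 2 := by
    rw [div_le_iff₀ hδ] at hLm
    have e5 : (m : ℝ) * (6 / L) * (6 * u) = (36 * m * u) / L := by ring
    have e6 : 72 * (m : ℝ) * u ≤ L * δ * u := mul_le_mul_of_nonneg_right hLm (by linarith)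
    rw [e5, div_le_iff₀ hL0]
    linarith
  have h7 : 0 ≤ 1 - ρ ^ m := by linarith
  have f1 : x * ρ ^ m - κ * u = (x - κ * u) * ρ ^ m - κ * u * (1 - ρ ^ m) := by ring
  have f2 : |(x - κ * u) * ρ ^ m| ≤ 2 * 1 := by
    rw [abs_mul, abs_of_nonneg hρm0]
    exact mul_le_mul hx' hρm1 hρm0 (by norm_num)
  rw [abs_le] at f2
  have f3 : κ * u * (1 - ρ ^ m) ≤ (6 * u) * (m * (6 / L)) := mul_le_mul hku' hρm h7 (by linarith)
  have f4 : 0 ≤ κ * u * (1 - ρ ^ m) := mul_nonneg (by linarith) h7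
  have f5 : (6 * u) * (m * (6 / L)) = (m : ℝ) * (6 / L) * (6 * u) := by ring
  rw [f1, abs_le]
  constructor
  · linarith [f2.1]
  · linarith [f2.2]

lemma sqrt_diff : (1 : ℝ) / 11 ≤ √30 - √29 ∧ √(30 : ℝ) ≤ 6 ∧ 2 ≤ √(29 : ℝ) ∧ √(29 : ℝ) ≤ 6 ∧ 2 ≤ √(30 : ℝ) := by
  have a1 : √(30 : ℝ) ≤ 11 / 2 := (Real.sqrt_le_left (by norm_num : (0 : ℝ) ≤ 11 / 2)).2 (by norm_num)
  have a2 : √(29 : ℝ) ≤ 11 / 2 := (Real.sqrt_le_left (by norm_num : (0 : ℝ) ≤ 11 / 2)).2 (by norm_num)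
  have a3 : 2 ≤ √(29 : ℝ) := Real.le_sqrt_of_sq_le (by norm_num)
  have a4 : 2 ≤ √(30 : ℝ) := Real.le_sqrt_of_sq_le (by norm_num)
  have e1 : √(30 : ℝ) * √30 = 30 := Real.mul_self_sqrt (by norm_num)
  have e2 : √(29 : ℝ) * √29 = 29 := Real.mul_self_sqrt (by norm_num)
  refine ⟨?_, by linarith, a3, by linarith, a4⟩
  have e3 : (√(30 : ℝ) - √29) * (√30 + √29) = 1 := by linear_combination e1 - e2
  have e4 : 0 < √(30 : ℝ) - √29 := by
    by_contra hcon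
    have : (√(30 : ℝ) - √29) * (√30 + √29) ≤ 0 := mul_nonpos_of_nonpos_of_nonneg (by linarith) (by linarith)
    linarith
  have e5 : (√(30 : ℝ) - √29) * (√30 + √29) ≤ (√30 - √29) * 11 := mul_le_mul_of_nonneg_left (by linarith) e4.le
  linarith

/-- the window of the primes -/
lemma count_eq {s : ℕ} (n : ℕ) (hn4 : ¬ 4 ∣ n) (hn : 100 ≤ n) (a : Fin s → ℕ) (X Y : ℕ) (hX : X = Nat.sqrt (30 * n))
    (hY : Y = Nat.sqrt (29 * n - 1)) :
    (count n a : ℝ) = (Pool.Agent.H560R3.GB.primeTuples a X : ℝ) - Pool.Agent.H560R3.GB.primeTuples a Y := by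
  classical
  have x1 : ∀ p : ℕ, p ^ 2 ≤ 30 * n ↔ p ≤ X := fun p => by rw [hX]; exact Nat.le_sqrt'.symm
  have y1 : ∀ p : ℕ, 29 * n ≤ p ^ 2 ↔ Y < p := by
    intro p
    rw [hY, Nat.sqrt_lt']
    omega
  have hYX : Y ≤ X := by
    rw [hX, hY]
    exact Nat.sqrt_le_sqrt (by omega)
  have hY2 : 50 ≤ Y := by
    by_contra hcon
    have := (y1 50).2 (by omega)
    omega
  have h1 : count n a = ((Ioc Y X).filter (fun p : ℕ => p.Prime ∧ ∀ i, (p + a i).Prime)).card := by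
    unfold count
    congr 1
    ext p
    rw [mem_filter, mem_filter, mem_Ioc, mem_range, y1, x1]
    constructor
    · rintro ⟨_, h2, h3, h4, h5, _⟩
      exact ⟨⟨h2, h3⟩, h4, h5⟩
    · rintro ⟨⟨h2, h3⟩, h4, h5⟩
      have hcop30 : Nat.Coprime p 30 := by
        rw [Nat.Prime.coprime_iff_not_dvd h4]
        intro hdvd
        have := Nat.le_of_dvd (by norm_num) hdvd
        omega
      obtain ⟨x, y, z, w, h6, h7⟩ := Pool.Agent.H141R2.FS.rep hn4 hcop30 ((y1 p).2 h2) ((x1 p).2 h3)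
      have h8 : p ≤ p ^ 2 := Nat.le_self_pow (by norm_num) p
      have h9 := (x1 p).2 h3
      exact ⟨by omega, h2, h3, h4, h5, x, y, z, w, h6, h7.symm⟩
  have h2 : Pool.Agent.H560R3.GB.primeTuples a X = Pool.Agent.H560R3.GB.primeTuples a Y + count n a := by
    rw [h1]
    unfold Pool.Agent.H560R3.GB.primeTuples
    rw [← card_union_of_disjoint, ← filter_union]
    · congr 2
      ext p
      rw [mem_union, mem_Icc, mem_Icc, mem_Ioc]
      omega
    · apply disjoint_filter_filter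
      rw [disjoint_left]
      intro p hp1 hp2
      rw [mem_Icc] at hp1
      rw [mem_Ioc] at hp2
      omega
  rw [h2]
  push_cast
  ring

/-- from the formula up to `X` and up to `Y` to the window -/
lemma window (s : ℕ) (ε : ℝ) (hε : 0 < ε) : ∃ n₀ : ℕ, ∀ n : ℕ, n₀ ≤ n → ¬ 4 ∣ n → ∀ a : Fin s → ℕ, ∀ U : ℕ,
    HLs (ε / 400) U (Nat.sqrt (30 * n)) a → HLs (ε / 400) U (Nat.sqrt (29 * n - 1)) a → Formula ε n a := by
  obtain ⟨d1, d2, d3, d4, d5⟩ := sqrt_diff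
  obtain ⟨δ, hδ⟩ : ∃ δ, δ = min (ε / 100) 1 := ⟨_, rfl⟩
  have hδ0 : 0 < δ := by rw [hδ]; exact lt_min (by linarith) one_pos
  have hδ1 : δ ≤ 1 := by rw [hδ]; exact min_le_right _ _
  have hδε : δ ≤ ε / 100 := by rw [hδ]; exact min_le_left _ _
  obtain ⟨T₁, hT₁⟩ := main_term (s + 1) (√30) δ d5 d2 hδ0
  obtain ⟨T₂, hT₂⟩ := main_term (s + 1) (√29) δ d3 d4 hδ0
  have hev : ∀ᶠ n : ℕ in Filter.atTop, max T₁ T₂ ≤ √(n : ℝ) ∧ 3 ≤ √(n : ℝ) := by
    have e1 : Filter.Tendsto (fun n : ℕ => √(n : ℝ)) Filter.atTop Filter.atTop :=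
      Real.tendsto_sqrt_atTop.comp tendsto_natCast_atTop_atTop
    exact (e1.eventually_ge_atTop _).and (e1.eventually_ge_atTop _)
  obtain ⟨n₁, hn₁⟩ := Filter.eventually_atTop.mp hev
  refine ⟨n₁ + 100, fun n hn hn4 a U hX hY => ?_⟩
  obtain ⟨g1, g2⟩ := hn₁ n (by omega)
  obtain ⟨X, hXd⟩ : ∃ X, X = Nat.sqrt (30 * n) := ⟨_, rfl⟩
  obtain ⟨Y, hYd⟩ : ∃ Y, Y = Nat.sqrt (29 * n - 1) := ⟨_, rfl⟩
  rw [← hXd] at hX
  rw [← hYd] at hY
  obtain ⟨S, hS1, _, hS3⟩ := hX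
  obtain ⟨S', hS1', _, hS3'⟩ := hY
  have hSS : S' = S := tendsto_nhds_unique hS1' hS1
  rw [hSS] at hS3'
  have hS1'' : Filter.Tendsto (sing a) Filter.atTop (nhds S) := by
    have := hS1
    rw [← sing_eq a]
    exact this
  refine ⟨S, hS1'', fun hadm => ?_⟩
  obtain ⟨hSpos, hPX⟩ := hS3 (adm_of a hadm)
  obtain ⟨_, hPY⟩ := hS3' (adm_of a hadm)
  refine ⟨hSpos, ?_⟩
  rw [count_eq n hn4 (by omega) a X Y hXd hYd]
  obtain ⟨u, hu⟩ : ∃ u, u = √(n : ℝ) := ⟨_, rfl⟩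
  have e30 : √(30 * (n : ℝ)) = √30 * u := by rw [hu, Real.sqrt_mul (by norm_num)]
  have e29 : √(29 * (n : ℝ)) = √29 * u := by rw [hu, Real.sqrt_mul (by norm_num)]
  rw [← hu] at g1 g2
  have hu0 : 0 < u := by linarith
  have huu : u * u = n := by rw [hu]; exact Real.mul_self_sqrt (Nat.cast_nonneg n)
  have hXr : |(X : ℝ) - √30 * u| ≤ 2 := by
    have a1 : X ^ 2 ≤ 30 * n := by rw [hXd]; exact Nat.sqrt_le' _
    have a2 : 30 * n < (X + 1) ^ 2 := by rw [hXd]; exact Nat.lt_succ_sqrt' _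
    have b1 : (X : ℝ) ^ 2 ≤ 30 * n := by exact_mod_cast a1
    have b2 : 30 * (n : ℝ) < ((X : ℝ) + 1) ^ 2 := by exact_mod_cast a2
    have c1 : (X : ℝ) ≤ √(30 * (n : ℝ)) := Real.le_sqrt_of_sq_le b1
    have c2 : √(30 * (n : ℝ)) < (X : ℝ) + 1 := (Real.sqrt_lt' (by positivity)).2 b2
    rw [e30] at c1 c2
    rw [abs_le]
    constructor <;> linarith
  have hYr : |(Y : ℝ) - √29 * u| ≤ 2 := by
    have a1 : Y ^ 2 ≤ 29 * n := (by rw [hYd]; exact Nat.sqrt_le' _ : Y ^ 2 ≤ 29 * n - 1).trans (Nat.sub_le _ _)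
    have a2 : 29 * n ≤ (Y + 1) ^ 2 := by
      have : 29 * n - 1 < (Y + 1) ^ 2 := by rw [hYd]; exact Nat.lt_succ_sqrt' _
      omega
    have b1 : (Y : ℝ) ^ 2 ≤ 29 * n := by exact_mod_cast a1
    have b2 : 29 * (n : ℝ) ≤ ((Y : ℝ) + 1) ^ 2 := by exact_mod_cast a2
    have c1 : (Y : ℝ) ≤ √(29 * (n : ℝ)) := Real.le_sqrt_of_sq_le b1
    have c2 : √(29 * (n : ℝ)) ≤ (Y : ℝ) + 1 := (Real.sqrt_le_left (by positivity : (0 : ℝ) ≤ (Y : ℝ) + 1)).2 b2
    rw [e29] at c1 c2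
    rw [abs_le]
    constructor <;> linarith
  have m1 := hT₁ u X ((le_max_left _ _).trans g1) hXr
  have m2 := hT₂ u Y ((le_max_right _ _).trans g1) hYr
  have hlu : 0 < Real.log u := Real.log_pos (by linarith)
  obtain ⟨D, hD⟩ : ∃ D, D = u / Real.log u ^ (s + 1) := ⟨_, rfl⟩
  have hD0 : 0 < D := by rw [hD]; positivity
  have eE : (√(30 * (n : ℝ)) - √(29 * (n : ℝ))) / Real.log √(n : ℝ) ^ (s + 1) = (√30 - √29) * D := by
    rw [e30, e29, ← hu, hD]
    ring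
  rw [eE]
  rw [← hD] at m1 m2
  obtain ⟨x1, hx1⟩ : ∃ x1, x1 = (X : ℝ) / Real.log X ^ (s + 1) := ⟨_, rfl⟩
  obtain ⟨y1, hy1⟩ : ∃ y1, y1 = (Y : ℝ) / Real.log Y ^ (s + 1) := ⟨_, rfl⟩
  rw [← hx1] at m1 hPX
  rw [← hy1] at m2 hPY
  rw [abs_le] at m1 m2
  have hδD : δ * D ≤ 1 * D := mul_le_mul_of_nonneg_right hδ1 hD0.le
  have h30D : √30 * D ≤ 6 * D := mul_le_mul_of_nonneg_right d2 hD0.le
  have h29D : √29 * D ≤ 6 * D := mul_le_mul_of_nonneg_right d4 hD0.le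
  have hx7 : x1 ≤ 7 * D := by linarith [m1.2]
  have hy7 : y1 ≤ 7 * D := by linarith [m2.2]
  have k1 : ε / 400 * (S * x1) ≤ ε / 400 * (S * (7 * D)) := by gcongr
  have k2 : ε / 400 * (S * y1) ≤ ε / 400 * (S * (7 * D)) := by gcongr
  rw [abs_le] at hPX hPY
  have k3 : S * (x1 - √30 * D) ≤ S * (δ * D) := mul_le_mul_of_nonneg_left m1.2 hSpos.le
  have k4 : S * (-(δ * D)) ≤ S * (x1 - √30 * D) := mul_le_mul_of_nonneg_left m1.1 hSpos.le
  have k5 : S * (y1 - √29 * D) ≤ S * (δ * D) := mul_le_mul_of_nonneg_left m2.2 hSpos.le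
  have k6 : S * (-(δ * D)) ≤ S * (y1 - √29 * D) := mul_le_mul_of_nonneg_left m2.1 hSpos.le
  have hSD : 0 < S * D := by positivity
  have k7 : δ * (S * D) ≤ ε / 100 * (S * D) := mul_le_mul_of_nonneg_right hδε hSD.le
  have k8 : ε * (1 / 11) * (S * D) ≤ ε * (√30 - √29) * (S * D) := by
    apply mul_le_mul_of_nonneg_right _ hSD.le
    exact mul_le_mul_of_nonneg_left d1 hε.le
  have k9 : 0 < ε * (S * D) := by positivity
  rw [abs_le]
  constructor
  · linarith [hPX.1, hPY.2]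
  · linarith [hPX.2, hPY.1]

/-! ### the theorem -/

open Filter

lemma ev_big (C : ℝ) : ∃ n₀ : ℕ, ∀ n : ℕ, n₀ ≤ n → C ≤ Real.log n := by
  have hev : ∀ᶠ n : ℕ in Filter.atTop, C ≤ Real.log n :=
    (Real.tendsto_log_atTop.comp tendsto_natCast_atTop_atTop).eventually_ge_atTop _
  exact Filter.eventually_atTop.mp hev

/-- the scale `N = ⌊√n / log ^ j n⌋` -/
lemma scale (j : ℕ) (N₀ : ℕ) : ∃ n₀ : ℕ, ∀ n : ℕ, n₀ ≤ n → N₀ ≤ ⌊√(n : ℝ) / Real.log n ^ j⌋₊ ∧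
    √(n : ℝ) ≤ 2 * ⌊√(n : ℝ) / Real.log n ^ j⌋₊ * Real.log n ^ j ∧
    Real.log n ≤ 3 * Real.log (⌊√(n : ℝ) / Real.log n ^ j⌋₊ : ℕ) := by
  have hlog : ∀ᶠ x : ℝ in atTop, Real.log x ^ j ≤ x ^ (1 / 100 : ℝ) := by
    have h1 := (isLittleO_log_rpow_rpow_atTop (j : ℝ) (show (0 : ℝ) < 1 / 100 by norm_num)).bound (show (0 : ℝ) < 1 by norm_num)
    filter_upwards [h1, eventually_ge_atTop 1] with x hx hx1
    have hl := Real.log_nonneg hx1
    rw [one_mul, Real.norm_of_nonneg (by positivity), Real.norm_of_nonneg (by positivity), Real.rpow_natCast] at hx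
    exact hx
  have hbig : ∀ᶠ x : ℝ in atTop, (N₀ : ℝ) + 4 ≤ x ^ (1 / 100 : ℝ) :=
    (tendsto_rpow_atTop (show (0 : ℝ) < 1 / 100 by norm_num)).eventually_ge_atTop _
  have hev : ∀ᶠ n : ℕ in atTop, (Real.log n ^ j ≤ (n : ℝ) ^ (1 / 100 : ℝ) ∧ (N₀ : ℝ) + 4 ≤ (n : ℝ) ^ (1 / 100 : ℝ)) ∧
      1 ≤ Real.log n := by
    refine ((tendsto_natCast_atTop_atTop (R := ℝ)).eventually (hlog.and hbig)).and ?_
    exact (Real.tendsto_log_atTop.comp tendsto_natCast_atTop_atTop).eventually_ge_atTop _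
  obtain ⟨n₀, h0⟩ := Filter.eventually_atTop.mp hev
  refine ⟨n₀ + 1, fun n hn => ?_⟩
  obtain ⟨⟨h1, h2⟩, h3⟩ := h0 n (by omega)
  have hn0 : (0 : ℝ) < n := by exact_mod_cast (by omega : 0 < n)
  obtain ⟨L, hL⟩ : ∃ L, L = Real.log n ^ j := ⟨_, rfl⟩
  rw [← hL] at h1 ⊢
  have hL1 : 1 ≤ L := by rw [hL]; exact one_le_pow₀ h3
  obtain ⟨z, hz⟩ : ∃ z, z = (n : ℝ) ^ (1 / 100 : ℝ) := ⟨_, rfl⟩
  rw [← hz] at h1 h2
  have hN₀ : (0 : ℝ) ≤ N₀ := Nat.cast_nonneg _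
  have hz4 : 4 ≤ z := by linarith
  have hsq : √(n : ℝ) = (n : ℝ) ^ (49 / 100 : ℝ) * z := by
    rw [hz, ← Real.rpow_add hn0, Real.sqrt_eq_rpow]
    norm_num
  have hsq2 : (n : ℝ) ^ (49 / 100 : ℝ) = (n : ℝ) ^ (48 / 100 : ℝ) * z := by
    rw [hz, ← Real.rpow_add hn0]
    norm_num
  have hn1 : (1 : ℝ) ≤ n := by exact_mod_cast (by omega : 1 ≤ n)
  have h48 : (1 : ℝ) ≤ (n : ℝ) ^ (48 / 100 : ℝ) := Real.one_le_rpow hn1 (by norm_num)
  have hx : (n : ℝ) ^ (49 / 100 : ℝ) ≤ √(n : ℝ) / L := by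
    rw [le_div_iff₀ (by linarith), hsq]
    exact mul_le_mul_of_nonneg_left h1 (by positivity)
  obtain ⟨x, hxd⟩ : ∃ x, x = √(n : ℝ) / L := ⟨_, rfl⟩
  rw [← hxd] at hx ⊢
  have hx0 : z ≤ x := by
    rw [hsq2] at hx
    refine le_trans ?_ hx
    exact le_mul_of_one_le_left (by linarith) h48
  have hfl : x - 1 < ⌊x⌋₊ := Nat.sub_one_lt_floor x
  have hsx : √(n : ℝ) = x * L := by
    rw [hxd]
    field_simp
  refine ⟨?_, ?_, ?_⟩
  · apply Nat.le_floor
    linarith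
  · rw [hsx]
    have : x ≤ 2 * (⌊x⌋₊ : ℝ) := by linarith
    exact mul_le_mul_of_nonneg_right this (by linarith)
  · have h5 : (n : ℝ) ^ (48 / 100 : ℝ) ≤ (⌊x⌋₊ : ℝ) := by
      have h6 : (n : ℝ) ^ (48 / 100 : ℝ) * 4 ≤ x := by
        rw [hsq2] at hx
        refine le_trans ?_ hx
        exact mul_le_mul_of_nonneg_left hz4 (by positivity)
      linarith
    have h6 := Real.log_le_log (by positivity) h5
    rw [Real.log_rpow hn0] at h6
    linarith

open Classical in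
theorem main (s : ℕ) (hs : 1 ≤ s) (κ : Fin s → ℤ) (hκ : ∀ i, κ i ≠ 0) (J W U a : ℕ) (ε : ℝ) (hε : 0 < ε) :
    ∃ V n₀ : ℕ, ∀ n : ℕ, n₀ ≤ n → ¬ 4 ∣ n → ∀ (M : Fin s → ℕ) [∀ i, NeZero (M i)],
      (∀ i, (M i : ℝ) * Real.log n ^ (J + 3) ≤ √(n : ℝ)) → (∀ i, √(n : ℝ) ≤ M i * Real.log n ^ a) →
      ∀ (ι : Fin s → Type) (S : ∀ i, Finset (ι i)) (y : ∀ i, ι i → ZMod (M i)),
      (∀ i, Flat (M i) (1 / Real.log (M i) ^ V) (S i) (y i)) →
      ∀ c : Fin s → ℤ, (∀ i, |(c i : ℝ)| * Real.log n ^ (J + 3) ≤ √(n : ℝ)) →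
      (((Fintype.piFinset S).filter fun m => ¬ ∀ r : Fin s → ℕ,
        (∀ i, |(r i : ℝ) - (c i + κ i * ((y i (m i)).val : ℕ))| ≤ Real.log n ^ W) →
        ∀ h : Fin s → ℕ, (∀ i, 1 ≤ h i ∧ (h i : ℝ) ≤ Real.log n ^ J) → Formula ε n (fun i => h i * r i)).card : ℝ) ≤
        (∏ i, ((S i).card : ℝ)) / Real.log n ^ U := by
  obtain ⟨V, N₀, h0⟩ := Pool.Agent.N384.MQ.mq_tuplesT s hs κ hκ (J + 1) (J + 5) (W + 1) (U + 1) (a + 1) (ε / 400) (by positivity)
  obtain ⟨n₁, hn₁⟩ := window s ε hε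
  obtain ⟨n₂, hn₂⟩ := scale (J + 3) (N₀ + 3)
  obtain ⟨n₃, hn₃⟩ := ev_big (12 * 3 ^ (J + 5) + 3 ^ (a + 1) + 3 ^ (W + 1) + 3 ^ (J + 1) + 2 * 3 ^ (U + 1) + 1)
  refine ⟨V, n₁ + n₂ + n₃ + 100, fun n hn hn4 M _ hM1 hM2 ι S y hf c hc => ?_⟩
  obtain ⟨g1, g2, g3⟩ := hn₂ n (by omega)
  have g4 := hn₃ n (by omega)
  obtain ⟨N, hN⟩ : ∃ N, N = ⌊√(n : ℝ) / Real.log n ^ (J + 3)⌋₊ := ⟨_, rfl⟩
  rw [← hN] at g1 g2 g3
  have p1 : (0 : ℝ) < 3 ^ (J + 5) := by positivity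
  have p2 : (0 : ℝ) < 3 ^ (a + 1) := by positivity
  have p3 : (0 : ℝ) < 3 ^ (W + 1) := by positivity
  have p4 : (0 : ℝ) < 3 ^ (J + 1) := by positivity
  have p5 : (0 : ℝ) < 3 ^ (U + 1) := by positivity
  obtain ⟨l, hl⟩ : ∃ l, l = Real.log n := ⟨_, rfl⟩
  obtain ⟨l', hl'⟩ : ∃ l', l' = Real.log (N : ℝ) := ⟨_, rfl⟩
  rw [← hl] at g2 g3 g4 hM1 hM2 hc ⊢
  rw [← hl'] at g3
  rw [← hl] at hN
  have hl1 : 1 ≤ l := by linarith
  have hl0 : 0 < l := by linarith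
  have hl'0 : 0 < l' := by linarith
  have hn0 : (0 : ℝ) < n := by exact_mod_cast (by omega : 0 < n)
  have hs0 : 0 ≤ √(n : ℝ) := Real.sqrt_nonneg _
  have hNx : (N : ℝ) * l ^ (J + 3) ≤ √(n : ℝ) := by
    have h1 : (N : ℝ) ≤ √(n : ℝ) / l ^ (J + 3) := by
      rw [hN]
      exact Nat.floor_le (by positivity)
    rwa [le_div_iff₀ (by positivity)] at h1
  have hNs : (N : ℝ) ≤ √(n : ℝ) := by
    refine le_trans ?_ hNx
    exact le_mul_of_one_le_right (Nat.cast_nonneg _) (one_le_pow₀ hl1)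
  have hNn : (N : ℝ) ≤ n := by
    refine hNs.trans ?_
    rw [Real.sqrt_le_left (by positivity)]
    have : (1 : ℝ) ≤ n := by exact_mod_cast (by omega : 1 ≤ n)
    nlinarith
  have hN3 : 3 ≤ N := by omega
  have hN0' : (0 : ℝ) < N := by exact_mod_cast (by omega : 0 < N)
  have hll : l' ≤ l := by
    rw [hl, hl']
    exact Real.log_le_log hN0' hNn
  -- powers of `log n` and `log N`
  have hpow : ∀ j : ℕ, (3 : ℝ) ^ (j + 1) ≤ l → l ^ j ≤ l' ^ (j + 1) := by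
    intro j hj
    have h1 : l ^ j ≤ 3 ^ j * l' ^ j := by
      rw [← mul_pow]
      exact pow_le_pow_left₀ hl0.le g3 j
    have h2 : (3 : ℝ) ^ j ≤ l' := by
      rw [pow_succ] at hj
      linarith
    calc l ^ j ≤ 3 ^ j * l' ^ j := h1
      _ ≤ l' * l' ^ j := mul_le_mul_of_nonneg_right h2 (by positivity)
      _ = l' ^ (j + 1) := by rw [pow_succ]; ring
  -- one of the two heights
  have hside : ∀ X : ℕ, n ≤ X ^ 2 → X ^ 2 ≤ 30 * n →
      (((Fintype.piFinset S).filter fun m => ¬ ∀ r : Fin s → ℕ,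
        (∀ i, |(r i : ℝ) - (c i + κ i * ((y i (m i)).val : ℕ))| ≤ l ^ W) →
        ∀ h : Fin s → ℕ, (∀ i, 1 ≤ h i ∧ (h i : ℝ) ≤ l ^ J) → HLs (ε / 400) (U + 1) X (fun i => h i * r i)).card : ℝ) ≤
        (1 / 2) * ((∏ i, ((S i).card : ℝ)) / l ^ U) := by
    intro X hX1 hX2
    have hX1' : √(n : ℝ) ≤ X := by
      rw [Real.sqrt_le_left (Nat.cast_nonneg _)]
      exact_mod_cast hX1
    have hX2' : (X : ℝ) ≤ 6 * √(n : ℝ) := by
      have h1 : ((X : ℝ)) ^ 2 ≤ (6 * √(n : ℝ)) ^ 2 := by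
        rw [mul_pow, Real.sq_sqrt hn0.le]
        have h2 : ((X : ℝ)) ^ 2 ≤ 30 * n := by exact_mod_cast hX2
        linarith
      exact le_of_sq_le_sq h1 (by positivity)
    have key := h0 N (by omega) M (fun i => ?_) (fun i => ?_) ι S y (fun i => hf i) c (fun i => ?_) X ?_ ?_
    · refine le_trans (Nat.cast_le.2 (card_le_card fun m hm => ?_)) (key.trans ?_)
      · rw [mem_filter] at hm ⊢
        refine ⟨hm.1, fun hcon => hm.2 fun r hr h hh => ?_⟩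
        refine hcon r (fun i => (hr i).trans ?_) h (fun i => ⟨(hh i).1, (hh i).2.trans ?_⟩)
        · rw [← hl']
          exact hpow W (by linarith)
        · rw [← hl']
          exact hpow J (by linarith)
      · have hP0 : 0 ≤ ∏ i, ((S i).card : ℝ) := prod_nonneg fun i _ => Nat.cast_nonneg _
        rw [← hl']
        have h1 : l ^ (U + 1) ≤ 3 ^ (U + 1) * l' ^ (U + 1) := by
          rw [← mul_pow]
          exact pow_le_pow_left₀ hl0.le g3 _
        have h2 : 2 * l ^ U ≤ l' ^ (U + 1) := by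
          have h3 : 2 * (3 : ℝ) ^ (U + 1) * l ^ U ≤ l ^ (U + 1) := by
            rw [pow_succ l U, mul_comm (l ^ U) l]
            exact mul_le_mul_of_nonneg_right (by linarith) (by positivity)
          have h4 : 3 ^ (U + 1) * (2 * l ^ U) ≤ 3 ^ (U + 1) * l' ^ (U + 1) := by linarith
          exact le_of_mul_le_mul_left h4 p5
        rw [one_div_mul_eq_div, div_div]
        apply div_le_div_of_nonneg_left hP0 (by positivity)
        linarith
    · have h1 : (M i : ℝ) ≤ √(n : ℝ) / l ^ (J + 3) := by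
        rw [le_div_iff₀ (by positivity)]
        exact hM1 i
      rw [hN]
      exact Nat.le_floor h1
    · rw [← hl']
      refine hNs.trans ((hM2 i).trans ?_)
      exact mul_le_mul_of_nonneg_left (hpow a (by linarith)) (Nat.cast_nonneg _)
    · have h1 : |(c i : ℝ)| ≤ √(n : ℝ) / l ^ (J + 3) := by
        rw [le_div_iff₀ (by positivity)]
        exact hc i
      have h2 : ((c i).natAbs : ℝ) ≤ √(n : ℝ) / l ^ (J + 3) := by
        rw [Nat.cast_natAbs, Int.cast_abs]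
        exact h1
      have h3 : (c i).natAbs ≤ N := by
        rw [hN]
        exact Nat.le_floor h2
      rw [Int.abs_eq_natAbs]
      exact_mod_cast h3
    · rw [← hl']
      refine le_trans ?_ hX1'
      refine le_trans ?_ hNx
      exact mul_le_mul_of_nonneg_left (pow_le_pow_left₀ hl'0.le hll _) hN0'.le
    · rw [← hl']
      have h1 : l ^ (J + 5) ≤ 3 ^ (J + 5) * l' ^ (J + 5) := by
        rw [← mul_pow]
        exact pow_le_pow_left₀ hl0.le g3 _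
      have h2 : 12 * (3 : ℝ) ^ (J + 5) * l ^ (J + 3) ≤ l ^ (J + 5) := by
        have h3 : l ^ (J + 5) = l * (l * l ^ (J + 3)) := by ring
        rw [h3]
        have h4 : 12 * (3 : ℝ) ^ (J + 5) * l ^ (J + 3) ≤ l * l ^ (J + 3) :=
          mul_le_mul_of_nonneg_right (by linarith) (by positivity)
        refine h4.trans ?_
        exact le_mul_of_one_le_left (by positivity) hl1
      have h5 : 12 * l ^ (J + 3) ≤ l' ^ (J + 5) := by
        have h4 : 3 ^ (J + 5) * (12 * l ^ (J + 3)) ≤ 3 ^ (J + 5) * l' ^ (J + 5) := by linarith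
        exact le_of_mul_le_mul_left h4 p1
      calc (X : ℝ) ≤ 6 * √(n : ℝ) := hX2'
        _ ≤ 6 * (2 * N * l ^ (J + 3)) := by linarith
        _ = N * (12 * l ^ (J + 3)) := by ring
        _ ≤ N * l' ^ (J + 5) := mul_le_mul_of_nonneg_left h5 hN0'.le
  obtain ⟨X, hX⟩ : ∃ X, X = Nat.sqrt (30 * n) := ⟨_, rfl⟩
  obtain ⟨Y, hY⟩ : ∃ Y, Y = Nat.sqrt (29 * n - 1) := ⟨_, rfl⟩
  have hX2 : X ^ 2 ≤ 30 * n := by rw [hX]; exact Nat.sqrt_le' _
  have hY2 : Y ^ 2 ≤ 30 * n := (by rw [hY]; exact Nat.sqrt_le' _ : Y ^ 2 ≤ 29 * n - 1).trans (by omega)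
  have hX1 : n ≤ X ^ 2 := by
    have e1 : 30 * n < (X + 1) ^ 2 := by rw [hX]; exact Nat.lt_succ_sqrt' _
    have e2 : 1 ≤ X := by
      by_contra hcon
      have : X = 0 := by omega
      rw [this] at e1
      omega
    nlinarith
  have hY1 : n ≤ Y ^ 2 := by
    have e1 : 29 * n - 1 < (Y + 1) ^ 2 := by rw [hY]; exact Nat.lt_succ_sqrt' _
    have e0 : 29 * n ≤ (Y + 1) ^ 2 := by omega
    have e2 : 1 ≤ Y := by
      by_contra hcon
      have : Y = 0 := by omega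
      rw [this] at e0
      omega
    nlinarith
  have hA := hside X hX1 hX2
  have hB := hside Y hY1 hY2
  have hsub : ((Fintype.piFinset S).filter fun m => ¬ ∀ r : Fin s → ℕ,
        (∀ i, |(r i : ℝ) - (c i + κ i * ((y i (m i)).val : ℕ))| ≤ l ^ W) →
        ∀ h : Fin s → ℕ, (∀ i, 1 ≤ h i ∧ (h i : ℝ) ≤ l ^ J) → Formula ε n (fun i => h i * r i)) ⊆
      ((Fintype.piFinset S).filter fun m => ¬ ∀ r : Fin s → ℕ,
        (∀ i, |(r i : ℝ) - (c i + κ i * ((y i (m i)).val : ℕ))| ≤ l ^ W) →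
        ∀ h : Fin s → ℕ, (∀ i, 1 ≤ h i ∧ (h i : ℝ) ≤ l ^ J) → HLs (ε / 400) (U + 1) X (fun i => h i * r i)) ∪
      ((Fintype.piFinset S).filter fun m => ¬ ∀ r : Fin s → ℕ,
        (∀ i, |(r i : ℝ) - (c i + κ i * ((y i (m i)).val : ℕ))| ≤ l ^ W) →
        ∀ h : Fin s → ℕ, (∀ i, 1 ≤ h i ∧ (h i : ℝ) ≤ l ^ J) → HLs (ε / 400) (U + 1) Y (fun i => h i * r i)) := by
    intro m hm
    rw [mem_filter] at hm
    rw [mem_union, mem_filter, mem_filter]
    by_contra hcon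
    rw [not_or] at hcon
    have h1 := not_not.1 fun hh => hcon.1 ⟨hm.1, hh⟩
    have h2 := not_not.1 fun hh => hcon.2 ⟨hm.1, hh⟩
    refine hm.2 fun r hr h hh => ?_
    have k1 := h1 r hr h hh
    have k2 := h2 r hr h hh
    rw [hX] at k1
    rw [hY] at k2
    exact hn₁ n (by omega) hn4 _ (U + 1) k1 k2
  have hcard := (card_le_card hsub).trans (card_union_le _ _)
  have hcard' : (((Fintype.piFinset S).filter fun m => ¬ ∀ r : Fin s → ℕ,
        (∀ i, |(r i : ℝ) - (c i + κ i * ((y i (m i)).val : ℕ))| ≤ l ^ W) →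
        ∀ h : Fin s → ℕ, (∀ i, 1 ≤ h i ∧ (h i : ℝ) ≤ l ^ J) → Formula ε n (fun i => h i * r i)).card : ℝ) ≤ _ :=
    Nat.cast_le.2 hcard
  rw [Nat.cast_add] at hcard'
  linarith

lemma large_of_sizes (a q₀ : ℕ) : ∃ n₀ : ℕ, ∀ n : ℕ, n₀ ≤ n → ∀ q : ℕ, √(n : ℝ) ≤ q * Real.log n ^ a → q₀ ≤ q := by
  obtain ⟨n₁, h1⟩ := scale a q₀
  obtain ⟨n₂, h2⟩ := ev_big 1
  refine ⟨n₁ + n₂, fun n hn q hq => (h1 n (by omega)).1.trans ?_⟩
  have h3 := h2 n (by omega)
  apply Nat.floor_le_of_le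
  rw [div_le_iff₀ (by positivity)]
  exact hq

open Classical in
/-- **(1)** Let `s ≥ 1`, the integers `κ_i ≠ 0`, `J`, `W`, `U`, `a` and `ε > 0` be fixed. There is a number `V` such that the
following holds for EVERY large `n` which is not divisible by `4`. Let `M_1, …, M_s` be moduli and `c_1, …, c_s` integers with
`√n / log ^ a n ≤ M_i` and `M_i, |c_i| ≤ √n / log ^ (J + 3) n`, and let `y_i`, for each `i`, be a finite family of residues
modulo `M_i`, whose Fourier coefficients at the nonzero frequencies are at most `1 / log ^ V M_i` times the number of its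
members. Then all the vectors of members `(y_1(m_1), …, y_s(m_s))`, with at most the proportion `1 / log ^ U n` of
exceptions, have the following property: for ALL the integers `r_i ≥ 0` with `|r_i - (c_i + κ_i y_i(m_i))| ≤ log ^ W n` (with
the least residue `0 ≤ y_i(m_i) < M_i`) and ALL `1 ≤ h_i ≤ log ^ J n` the formula of Hardy and Littlewood holds, up to the
fraction `ε`, for the number of the primes `p` with `29 n ≤ p² ≤ 30 n`, `n = x² + y² + z² + w²`, `p = x + 2 y + 5 z`, and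
`p + h_1 r_1, …, p + h_s r_s` prime.

**(2)** In particular, with `δ > 0` and `m` fixed, this holds for the geometric progressions `A_i g_i ^ j`, `0 ≤ j < L_i`,
modulo squarefree `q_i` with at most `m` prime factors, if `A_i` is coprime to `q_i`, `L_i ≥ q_i ^ δ` and the order of `g_i`
modulo every prime factor of `q_i` is at least `L_i` (for instance, for all the cosets of all the subgroups of an order of at
least `q ^ δ` of the multiplicative group modulo a prime `q`).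

**(3)** And there is a `C` such that it holds for the quotients `j / ρ` of the integers `0 ≤ j < R_i ^ 2` by the primes
`ρ ≤ R_i`, modulo primes `q_i`, if `log ^ C n ≤ R_i < q_i` (so that these families may have only `log ^ (3 C + 1) n`
members). -/
theorem result (s : ℕ) (hs : 1 ≤ s) (κ : Fin s → ℤ) (hκ : ∀ i, κ i ≠ 0) (J W U a : ℕ) (ε : ℝ) (hε : 0 < ε) :
    (∃ V n₀ : ℕ, ∀ n : ℕ, n₀ ≤ n → ¬ 4 ∣ n → ∀ (M : Fin s → ℕ) [∀ i, NeZero (M i)] (c : Fin s → ℤ), Sizes J a n M c →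
      ∀ (ι : Fin s → Type) (S : ∀ i, Finset (ι i)) (y : ∀ i, ι i → ZMod (M i)),
      (∀ i, Flat (M i) (1 / Real.log (M i) ^ V) (S i) (y i)) →
      (((Fintype.piFinset S).filter fun m => ¬ Good κ J W ε n c (fun i => (y i (m i)).val)).card : ℝ) ≤
        (∏ i, ((S i).card : ℝ)) / Real.log n ^ U) ∧
    (∀ (δ : ℝ), 0 < δ → ∀ m : ℕ, ∃ n₀ : ℕ, ∀ n : ℕ, n₀ ≤ n → ¬ 4 ∣ n → ∀ (q : Fin s → ℕ) (c : Fin s → ℤ), Sizes J a n q c →
      (∀ i, Squarefree (q i) ∧ (q i).primeFactors.card ≤ m) → ∀ A g L : Fin s → ℕ, (∀ i, Nat.Coprime (A i) (q i)) →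
      (∀ i, ∀ p ∈ (q i).primeFactors, L i ≤ orderOf (g i : ZMod p)) → (∀ i, (q i : ℝ) ^ δ ≤ L i) →
      (((Fintype.piFinset fun i => range (L i)).filter fun j =>
        ¬ Good κ J W ε n c (fun i => A i * g i ^ (j i) % q i)).card : ℝ) ≤ (∏ i, (L i : ℝ)) / Real.log n ^ U) ∧
    (∃ C n₀ : ℕ, ∀ n : ℕ, n₀ ≤ n → ¬ 4 ∣ n → ∀ (q : Fin s → ℕ) (c : Fin s → ℤ), Sizes J a n q c →
      (∀ i, (q i).Prime) → ∀ R : Fin s → ℕ, (∀ i, Real.log n ^ C ≤ R i ∧ R i < q i) →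
      (((Fintype.piFinset fun i => ((Icc 1 (R i)).filter Nat.Prime) ×ˢ range (R i ^ 2)).filter fun z =>
        ¬ Good κ J W ε n c (fun i => (((z i).2 : ZMod (q i)) * ((z i).1 : ZMod (q i))⁻¹).val)).card : ℝ) ≤
        (∏ i, ((((Icc 1 (R i)).filter Nat.Prime).card * R i ^ 2 : ℕ) : ℝ)) / Real.log n ^ U) := by
  obtain ⟨V, n₁, h1⟩ := main s hs κ hκ J W U a ε hε
  refine ⟨⟨V, n₁, fun n hn hn4 M _ c hM ι S y hf => ?_⟩, fun δ hδ m => ?_, ?_⟩
  · exact h1 n hn hn4 M (fun i => (hM i).2.1) (fun i => (hM i).1) ι S y hf c (fun i => (hM i).2.2)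
  · obtain ⟨q₀, h2⟩ := Pool.Agent.H46FF.flat_geo δ hδ m V
    obtain ⟨n₂, h3⟩ := large_of_sizes a (q₀ + 1)
    refine ⟨n₁ + n₂, fun n hn hn4 q c hq hsq A g L hA hg hL => ?_⟩
    have hq0 : ∀ i, q₀ + 1 ≤ q i := fun i => h3 n (by omega) (q i) (hq i).1
    have : ∀ i, NeZero (q i) := fun i => ⟨by have := hq0 i; omega⟩
    have key := h1 n (by omega) hn4 q (fun i => (hq i).2.1) (fun i => (hq i).1) (fun _ => ℕ) (fun i => range (L i))
      (fun i j => ((A i * g i ^ j : ℕ) : ZMod (q i)))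
      (fun i => h2 (q i) (by have := hq0 i; omega) (hsq i).1 (hsq i).2 (A i) (g i) (L i) (hA i) (hg i) (hL i)) c
      (fun i => (hq i).2.2)
    simp only [card_range, ZMod.val_natCast] at key
    exact key
  · refine ⟨V + 4, ?_⟩
    obtain ⟨P₀, h2⟩ := Pool.Agent.N384.MQ.flat_quot V
    obtain ⟨n₂, h3⟩ := large_of_sizes a (P₀ + 3)
    obtain ⟨n₃, h4⟩ := ev_big 1
    refine ⟨n₁ + n₂ + n₃ + 1, fun n hn hn4 q c hq hp R hR => ?_⟩
    have hq0 : ∀ i, P₀ + 3 ≤ q i := fun i => h3 n (by omega) (q i) (hq i).1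
    have : ∀ i, NeZero (q i) := fun i => ⟨by have := hq0 i; omega⟩
    have : ∀ i, Fact (q i).Prime := fun i => ⟨hp i⟩
    have hl1 := h4 n (by omega)
    have hn0 : (1 : ℝ) ≤ n := by exact_mod_cast (by omega : 1 ≤ n)
    have hlog : ∀ i, 0 ≤ Real.log (q i) ∧ Real.log (q i) ≤ Real.log n := by
      intro i
      have e1 : (1 : ℝ) ≤ q i := by exact_mod_cast (by have := hq0 i; omega : 1 ≤ q i)
      refine ⟨Real.log_nonneg e1, Real.log_le_log (by linarith) ?_⟩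
      have e2 : (q i : ℝ) ≤ √(n : ℝ) := by
        refine le_trans ?_ (hq i).2.1
        exact le_mul_of_one_le_right (by linarith) (one_le_pow₀ hl1)
      refine e2.trans ?_
      rw [Real.sqrt_le_left (by linarith)]
      nlinarith
    have key := h1 n (by omega) hn4 q (fun i => (hq i).2.1) (fun i => (hq i).1) (fun _ => ℕ × ℕ)
      (fun i => ((Icc 1 (R i)).filter Nat.Prime) ×ˢ range (R i ^ 2))
      (fun i z => ((z.2 : ℕ) : ZMod (q i)) * ((z.1 : ℕ) : ZMod (q i))⁻¹)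
      (fun i => h2 (q i) (by have := hq0 i; omega) (R i) (R i ^ 2)
        ((pow_le_pow_left₀ (hlog i).1 (hlog i).2 _).trans (hR i).1) (hR i).2 le_rfl) c
      (fun i => (hq i).2.2)
    simp only [card_product, card_range] at key
    exact key

end Pool.Agent.Results.MP_40574a_nt.FourierFlatQuadruples
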