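import Pool.Agent.H85G.F
import Pool.Agent.H85G.S
import Pool.Agent.H141R2.FS.Main1

/-!
# EVERY large `n`, `4 ∤ n`: four squares whose linear form starts a prime tuple, with shifts whose digits have long range
# interactions

`n = x² + y² + z² + w²`, `p = x + 2 y + 5 z`, and `p`, `p + a_1, …, p + a_s` are primes. The shifts `a_i` are the integers
close to `c_i + κ_i v_i` with independent random integers `v_i`. The digits of `v_i` (in a base of its own) form a Gibbs
measure: the interactions have unbounded range, involve any number of digits, and are neither small nor translation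
invariant; the only condition is that they are summable at each position. The a priori measure is an arbitrary Markov random
field with flexible digits on an arbitrary graph of positions of bounded degree. With a high probability, for ALL shifts
nearby, the number of the represented primes `p` with `29 n ≤ p² ≤ 30 n` for which all `p + a_i` are primes is given by the
formula of Hardy and Littlewood.

Method: the exponential sums over these measures are exponentially small in the number of the positions at which the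
frequency has a digit which is not extremal (`Pool.Agent.H85G`); so the random integers have a thin large spectrum, and the
prime tuples can be counted (starting files, `Pool.Agent.N469.PT.ws_final`). Every `p` coprime to `30` in the window is
represented (starting files, `Pool.Agent.H141R2.FS.rep`).
-/

set_option autoImplicit false

namespace Pool.Agent.Results.MP_40574a_nt.LongRangeGibbsQuadruples

open Finset

/-- The digit of `v` at the position `i` in base `b` (the position `0` is the least significant one). -/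
def dig (b v i : ℕ) : ℕ := v / b ^ i % b

/-- The integer which has the digits of `v` at the positions in `S` and the digits of `w` at the other positions below `k`. -/
def splice (b k : ℕ) (S : Finset ℕ) (v w : ℕ) : ℕ := ∑ i ∈ range k, (if i ∈ S then dig b v i else dig b w i) * b ^ i

/-- `v` and `w` have the same digits outside the set `S` of positions. -/
def Off (b : ℕ) (S : Finset ℕ) (v w : ℕ) : Prop := ∀ i, i ∉ S → dig b v i = dig b w i

open Classical in
/-- The closed neighbourhood of the position `i` in the graph `A` on the positions `0, …, k - 1`. -/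
noncomputable def nb (k : ℕ) (A : ℕ → ℕ → Prop) (i : ℕ) : Finset ℕ := (range k).filter fun j => j = i ∨ A i j

open Classical in
/-- The total weight of the integers below `b ^ k` which have the same digits as `v` outside `S`. -/
noncomputable def mass (b k : ℕ) (q : ℕ → ℝ) (S : Finset ℕ) (v : ℕ) : ℝ :=
  ∑ w ∈ (range (b ^ k)).filter (fun w => Off b S w v), q w

/-- The a priori measure: the digits of a random integer `v < b ^ k` (with the probabilities `q v`) form a Markov random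
field on a graph `A` of positions with degrees at most `Δ` (for every set `S` of positions and all `v`, `w` which have the
same digits at the positions outside `S` adjacent to `S`, the product `q v * q w` does not change if `v` and `w` exchange
their digits in `S`), and each digit is flexible: for every `v` with `q v ≠ 0` and every position `i`, there are `x` and `y`
which have the same digits as `v` outside the closed neighbourhood of `i`, which differ from each other exactly at the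
position `i`, and whose conditional probabilities, given the digits outside this neighbourhood, are at least `η`. (For
instance, with `Δ = 0`: independent digits, each of which has at least two values with probabilities at least `η`.) -/
structure RandomField (b k Δ : ℕ) (η : ℝ) (A : ℕ → ℕ → Prop) (q : ℕ → ℝ) : Prop where
  symm : ∀ i j, A i j → A j i
  degree : ∀ i < k, (nb k A i).card ≤ Δ + 1
  nonneg : ∀ v, 0 ≤ q v
  sum : ∑ v ∈ range (b ^ k), q v = 1
  markov : ∀ S : Finset ℕ, ∀ v < b ^ k, ∀ w < b ^ k, (∀ i ∈ S, ∀ j < k, j ∉ S → A i j → dig b v j = dig b w j) →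
    q v * q w = q (splice b k S v w) * q (splice b k S w v)
  flexible : ∀ v < b ^ k, q v ≠ 0 → ∀ i < k, ∃ x < b ^ k, ∃ y < b ^ k, Off b (nb k A i) x v ∧ Off b {i} y x ∧
    dig b y i ≠ dig b x i ∧ η * mass b k q (nb k A i) v ≤ q x ∧ η * mass b k q (nb k A i) v ≤ q y

/-- The interactions `φ X`, for all sets `X ⊆ {0, …, k - 1}` of positions: `φ X v` depends only on the digits of `v` at the
positions in `X`, its absolute value is at most `N X`, and for each position `i` the sum of `exp (r * |X|) * N X` over the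
sets `X` which contain `i` is at most `M`. (For instance, pair interactions `φ {i, j}` with `∑ j, N {i, j} ≤ exp (- 2 r) M`
for all `i`, at arbitrary distances.) -/
structure Interaction (b k : ℕ) (M r : ℝ) (φ : Finset ℕ → ℕ → ℝ) (N : Finset ℕ → ℝ) : Prop where
  depends : ∀ X ⊆ range k, ∀ v < b ^ k, ∀ w < b ^ k, (∀ i ∈ X, dig b v i = dig b w i) → φ X v = φ X w
  bound : ∀ X ⊆ range k, ∀ v < b ^ k, |φ X v| ≤ N X
  summable : ∀ i < k, ∑ X ∈ (range k).powerset.filter (fun X => i ∈ X), Real.exp (r * X.card) * N X ≤ M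

/-- The Gibbs weight: the a priori weight times the exponential of the sum of all the interactions. -/
noncomputable def weight (k : ℕ) (q : ℕ → ℝ) (φ : Finset ℕ → ℕ → ℝ) (v : ℕ) : ℝ :=
  q v * Real.exp (∑ X ∈ (range k).powerset, φ X v)

/-- The Gibbs measure: the probability of `v < b ^ k`. -/
noncomputable def gibbs (b k : ℕ) (q : ℕ → ℝ) (φ : Finset ℕ → ℕ → ℝ) (v : ℕ) : ℝ :=
  weight k q φ v / ∑ w ∈ range (b ^ k), weight k q φ w

lemma field_conv {b k Δ : ℕ} {η : ℝ} {A : ℕ → ℕ → Prop} {q : ℕ → ℝ} (h : RandomField b k Δ η A q) :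
    Pool.Agent.N213.GF.Field b k Δ η A q :=
  ⟨h.symm, h.degree, h.nonneg, h.sum, h.markov, h.flexible⟩

lemma inter_conv {b k : ℕ} {M r : ℝ} {φ : Finset ℕ → ℕ → ℝ} {N : Finset ℕ → ℝ} (hb : 2 ≤ b) (h : Interaction b k M r φ N) :
    Pool.Agent.H85G.Inter b k (max M 0) r (fun X v => if X ⊆ range k then φ X v else 0)
      (fun X => if X ⊆ range k then N X else 0) := by
  have h0 : ∀ X ⊆ range k, 0 ≤ N X := by
    intro X hX
    exact (abs_nonneg _).trans (h.bound X hX 0 (by positivity))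
  refine ⟨?_, ?_, ?_, ?_⟩
  · intro X v hv w hw hvw
    split_ifs with hX
    · exact h.depends X hX v hv w hw hvw
    · rfl
  · intro X v hv
    split_ifs with hX
    · exact h.bound X hX v hv
    · rw [abs_zero]
  · intro X
    split_ifs with hX
    · exact h0 X hX
    · exact le_rfl
  · intro i hi
    refine le_trans (le_of_eq ?_) ((h.summable i hi).trans (le_max_left _ _))
    apply sum_congr rfl
    intro X hX
    rw [mem_filter, mem_powerset] at hX
    beta_reduce
    rw [if_pos hX.1]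

lemma energy_conv {k : ℕ} (φ : Finset ℕ → ℕ → ℝ) (v : ℕ) :
    Pool.Agent.H85G.energy k (fun X v => if X ⊆ range k then φ X v else 0) v = ∑ X ∈ (range k).powerset, φ X v := by
  unfold Pool.Agent.H85G.energy
  apply sum_congr rfl
  intro X hX
  beta_reduce
  rw [if_pos (mem_powerset.1 hX)]

lemma gt_conv {b k Δ : ℕ} (hb : 2 ≤ b) {η M r : ℝ} {A : ℕ → ℕ → Prop} {q : ℕ → ℝ} {φ : Finset ℕ → ℕ → ℝ} {N : Finset ℕ → ℝ}
    (hq : RandomField b k Δ η A q) (hφ : Interaction b k M r φ N) :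
    Pool.Agent.H85G.GT b Δ η (max M 0) r k (gibbs b k q φ) := by
  refine ⟨A, q, _, _, field_conv hq, inter_conv hb hφ, ?_⟩
  funext v
  unfold gibbs weight Pool.Agent.H85G.gibbs
  simp only [energy_conv]

/-- The number of the residues `r` modulo `ℓ` for which `ℓ` divides `r (r + a_1) ... (r + a_s)`, for primes `ℓ`. -/
def nu {s : ℕ} (a : Fin s → ℕ) (ℓ : ℕ) : ℕ := ((range ℓ).filter (fun r => ℓ ∣ r ∨ ∃ i, ℓ ∣ r + a i)).card

/-- The partial product of the singular series of Hardy and Littlewood over the primes `ℓ ≤ z`. -/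
noncomputable def sing {s : ℕ} (a : Fin s → ℕ) (z : ℕ) : ℝ :=
  ∏ ℓ ∈ (Icc 1 z).filter Nat.Prime, (1 - (nu a ℓ : ℝ) / ℓ) / (1 - 1 / (ℓ : ℝ)) ^ (s + 1)

/-- No prime `ℓ` divides `r (r + a_1) ... (r + a_s)` for all `r`. -/
def Admissible {s : ℕ} (a : Fin s → ℕ) : Prop := ∀ ℓ : ℕ, ℓ.Prime → ∃ r : ℕ, ¬ ℓ ∣ r ∧ ∀ i, ¬ ℓ ∣ r + a i

open Classical in
/-- The number of the primes `p` with `29 n ≤ p² ≤ 30 n` which have the form `p = x + 2 y + 5 z` for a representation
`n = x² + y² + z² + w²` with natural numbers, and for which all the `p + a_i` are primes. -/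
noncomputable def count {s : ℕ} (n : ℕ) (a : Fin s → ℕ) : ℕ :=
  ((range (30 * n + 1)).filter (fun p : ℕ => 29 * n ≤ p ^ 2 ∧ p ^ 2 ≤ 30 * n ∧ p.Prime ∧ (∀ i, (p + a i).Prime) ∧
    ∃ x y z w : ℕ, n = x ^ 2 + y ^ 2 + z ^ 2 + w ^ 2 ∧ p = x + 2 * y + 5 * z)).card

/-- The formula of Hardy and Littlewood with a relative error of at most `ε`: the singular series converges to some `S`, and
if the shifts are admissible then `S > 0` and the number of the represented prime tuples is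
`S (√(30 n) - √(29 n)) / log ^ (s + 1) √n` up to the fraction `ε`. -/
def Formula {s : ℕ} (ε : ℝ) (n : ℕ) (a : Fin s → ℕ) : Prop :=
  ∃ S : ℝ, Filter.Tendsto (sing a) Filter.atTop (nhds S) ∧ (Admissible a → 0 < S ∧
    |(count n a : ℝ) - S * ((√(30 * (n : ℝ)) - √(29 * (n : ℝ))) / Real.log √(n : ℝ) ^ (s + 1))| ≤
      ε * (S * ((√(30 * (n : ℝ)) - √(29 * (n : ℝ))) / Real.log √(n : ℝ) ^ (s + 1))))

/-! ### the singular series of the starting files -/

open Pool.Agent.W93.TD (HLs)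

lemma nu_eq {s : ℕ} (a : Fin s → ℕ) (ℓ : ℕ) : Pool.Agent.H373R2.T7.nuP (fun i => (a i : ℤ)) ℓ = nu a ℓ := by
  unfold Pool.Agent.H373R2.T7.nuP nu
  congr 1
  apply filter_congr
  intro r _
  have : ∀ i, ((ℓ : ℤ) ∣ (r : ℤ) + (a i : ℤ)) ↔ ℓ ∣ r + a i := fun i => by
    rw [← Nat.cast_add]
    exact Int.natCast_dvd_natCast
  simp only [this]

lemma sing_eq {s : ℕ} (a : Fin s → ℕ) : Pool.Agent.H373R2.T7.singZ (fun i => (a i : ℤ)) = sing a := by
  funext z
  unfold Pool.Agent.H373R2.T7.singZ sing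
  simp only [nu_eq]

lemma adm_of {s : ℕ} (a : Fin s → ℕ) (h : Admissible a) : Pool.Agent.H373R2.T7.Admissible (fun i => (a i : ℤ)) := by
  intro ℓ hℓ
  obtain ⟨r, h1, h2⟩ := h ℓ hℓ
  refine ⟨(r : ℤ), fun h3 => h1 (by exact_mod_cast h3), fun i h3 => h2 i ?_⟩
  have h3' : (ℓ : ℤ) ∣ (r : ℤ) + (a i : ℤ) := h3
  rw [← Nat.cast_add] at h3'
  exact Int.natCast_dvd_natCast.1 h3'

/-! ### the main term -/

lemma main_term (m : ℕ) (κ δ : ℝ) (h2 : 2 ≤ κ) (h6 : κ ≤ 6) (hδ : 0 < δ) : ∃ T : ℝ, ∀ u x : ℝ, T ≤ u → |x - κ * u| ≤ 2 →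
    |x / Real.log x ^ m - κ * (u / Real.log u ^ m)| ≤ δ * (u / Real.log u ^ m) := by
  obtain ⟨T₁, hT₁⟩ := Filter.eventually_atTop.mp (Real.tendsto_log_atTop.eventually_ge_atTop (1 + 72 * m / δ))
  refine ⟨max (max T₁ 2) (4 / δ), fun u x hu hx => ?_⟩
  have hu1 : T₁ ≤ u := (le_max_left _ _).trans ((le_max_left _ _).trans hu)
  have hu2 : 2 ≤ u := (le_max_right _ _).trans ((le_max_left _ _).trans hu)
  have hu3 : 4 / δ ≤ u := (le_max_right _ _).trans hu
  have hL := hT₁ u hu1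
  obtain ⟨L, hLdef⟩ : ∃ L, L = Real.log u := ⟨_, rfl⟩
  rw [← hLdef] at hL ⊢
  have hm0 : (0 : ℝ) ≤ m := Nat.cast_nonneg m
  have hL1 : 1 ≤ L := by
    have : 0 ≤ 72 * (m : ℝ) / δ := by positivity
    linarith
  have hLm : 72 * m / δ ≤ L := by linarith
  have hL0 : 0 < L := by linarith
  have hx' := hx
  rw [abs_le] at hx
  have hku : 2 * u ≤ κ * u := mul_le_mul_of_nonneg_right h2 (by linarith)
  have hku' : κ * u ≤ 6 * u := mul_le_mul_of_nonneg_right h6 (by linarith)
  have hxu : u ≤ x := by linarith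
  have hx7 : x ≤ 7 * u := by linarith
  have hx0 : 0 < x := by linarith
  have hlx1 : L ≤ Real.log x := by rw [hLdef]; exact Real.log_le_log (by linarith) hxu
  have hlx2 : Real.log x ≤ L + 6 := by
    have e1 : Real.log x ≤ Real.log (7 * u) := Real.log_le_log hx0 hx7
    rw [Real.log_mul (by norm_num) (by linarith)] at e1
    have e2 : Real.log 7 ≤ 7 - 1 := Real.log_le_sub_one_of_pos (by norm_num)
    linarith
  have hlx0 : 0 < Real.log x := by linarith
  obtain ⟨ρ, hρ⟩ : ∃ ρ, ρ = L / Real.log x := ⟨_, rfl⟩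
  have hρ0 : 0 < ρ := by rw [hρ]; positivity
  have hρ1 : ρ ≤ 1 := by rw [hρ, div_le_one hlx0]; exact hlx1
  have hρ2 : 1 - ρ ≤ 6 / L := by
    have e1 : 1 - ρ = (Real.log x - L) / Real.log x := by
      rw [hρ]
      field_simp
    rw [e1, div_le_div_iff₀ hlx0 hL0]
    calc (Real.log x - L) * L ≤ 6 * L := mul_le_mul_of_nonneg_right (by linarith) hL0.le
      _ ≤ 6 * Real.log x := by linarith
  have hb := one_add_mul_le_pow (a := ρ - 1) (by linarith) m
  have e0 : (1 + (ρ - 1)) = ρ := by ring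
  rw [e0] at hb
  have hρm : 1 - ρ ^ m ≤ m * (6 / L) := by
    have : (m : ℝ) * (1 - ρ) ≤ m * (6 / L) := mul_le_mul_of_nonneg_left hρ2 hm0
    linarith
  have hρm1 : ρ ^ m ≤ 1 := pow_le_one₀ hρ0.le hρ1
  have hρm0 : 0 ≤ ρ ^ m := by positivity
  have ex : x / Real.log x ^ m = x * ρ ^ m / L ^ m := by
    rw [hρ, div_pow]
    field_simp
  have e3 : x / Real.log x ^ m - κ * (u / L ^ m) = (x * ρ ^ m - κ * u) / L ^ m := by
    rw [ex]
    ring
  have e4 : δ * (u / L ^ m) = δ * u / L ^ m := by ring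
  rw [e3, e4, abs_div, abs_of_pos (by positivity : (0 : ℝ) < L ^ m)]
  apply div_le_div_of_nonneg_right _ (by positivity)
  have h4 : 4 ≤ δ * u := by
    rw [div_le_iff₀ hδ] at hu3
    linarith
  have h5 : (m : ℝ) * (6 / L) * (6 * u) ≤ δ * u / 2 := by
    rw [div_le_iff₀ hδ] at hLm
    have e5 : (m : ℝ) * (6 / L) * (6 * u) = (36 * m * u) / L := by ring
    have e6 : 72 * (m : ℝ) * u ≤ L * δ * u := mul_le_mul_of_nonneg_right hLm (by linarith)
    rw [e5, div_le_iff₀ hL0]
    linarith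
  have h7 : 0 ≤ 1 - ρ ^ m := by linarith
  have f1 : x * ρ ^ m - κ * u = (x - κ * u) * ρ ^ m - κ * u * (1 - ρ ^ m) := by ring
  have f2 : |(x - κ * u) * ρ ^ m| ≤ 2 * 1 := by
    rw [abs_mul, abs_of_nonneg hρm0]
    exact mul_le_mul hx' hρm1 hρm0 (by norm_num)
  rw [abs_le] at f2
  have f3 : κ * u * (1 - ρ ^ m) ≤ (6 * u) * (m * (6 / L)) := mul_le_mul hku' hρm h7 (by linarith)
  have f4 : 0 ≤ κ * u * (1 - ρ ^ m) := mul_nonneg (by linarith) h7
  have f5 : (6 * u) * (m * (6 / L)) = (m : ℝ) * (6 / L) * (6 * u) := by ring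
  rw [f1, abs_le]
  constructor
  · linarith [f2.1]
  · linarith [f2.2]

lemma sqrt_diff : (1 : ℝ) / 11 ≤ √30 - √29 ∧ √(30 : ℝ) ≤ 6 ∧ 2 ≤ √(29 : ℝ) ∧ √(29 : ℝ) ≤ 6 ∧ 2 ≤ √(30 : ℝ) := by
  have a1 : √(30 : ℝ) ≤ 11 / 2 := (Real.sqrt_le_left (by norm_num : (0 : ℝ) ≤ 11 / 2)).2 (by norm_num)
  have a2 : √(29 : ℝ) ≤ 11 / 2 := (Real.sqrt_le_left (by norm_num : (0 : ℝ) ≤ 11 / 2)).2 (by norm_num)
  have a3 : 2 ≤ √(29 : ℝ) := Real.le_sqrt_of_sq_le (by norm_num)
  have a4 : 2 ≤ √(30 : ℝ) := Real.le_sqrt_of_sq_le (by norm_num)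
  have e1 : √(30 : ℝ) * √30 = 30 := Real.mul_self_sqrt (by norm_num)
  have e2 : √(29 : ℝ) * √29 = 29 := Real.mul_self_sqrt (by norm_num)
  refine ⟨?_, by linarith, a3, by linarith, a4⟩
  have e3 : (√(30 : ℝ) - √29) * (√30 + √29) = 1 := by linear_combination e1 - e2
  have e4 : 0 < √(30 : ℝ) - √29 := by
    by_contra hcon
    have : (√(30 : ℝ) - √29) * (√30 + √29) ≤ 0 := mul_nonpos_of_nonpos_of_nonneg (by linarith) (by linarith)
    linarith
  have e5 : (√(30 : ℝ) - √29) * (√30 + √29) ≤ (√30 - √29) * 11 := mul_le_mul_of_nonneg_left (by linarith) e4.le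
  linarith

/-- the window of the primes -/
lemma count_eq {s : ℕ} (n : ℕ) (hn4 : ¬ 4 ∣ n) (hn : 100 ≤ n) (a : Fin s → ℕ) (X Y : ℕ) (hX : X = Nat.sqrt (30 * n))
    (hY : Y = Nat.sqrt (29 * n - 1)) :
    (count n a : ℝ) = (Pool.Agent.H560R3.GB.primeTuples a X : ℝ) - Pool.Agent.H560R3.GB.primeTuples a Y := by
  classical
  have x1 : ∀ p : ℕ, p ^ 2 ≤ 30 * n ↔ p ≤ X := fun p => by rw [hX]; exact Nat.le_sqrt'.symm
  have y1 : ∀ p : ℕ, 29 * n ≤ p ^ 2 ↔ Y < p := by
    intro p
    rw [hY, Nat.sqrt_lt']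
    omega
  have hYX : Y ≤ X := by
    rw [hX, hY]
    exact Nat.sqrt_le_sqrt (by omega)
  have hY2 : 50 ≤ Y := by
    by_contra hcon
    have := (y1 50).2 (by omega)
    omega
  have h1 : count n a = ((Ioc Y X).filter (fun p : ℕ => p.Prime ∧ ∀ i, (p + a i).Prime)).card := by
    unfold count
    congr 1
    ext p
    rw [mem_filter, mem_filter, mem_Ioc, mem_range, y1, x1]
    constructor
    · rintro ⟨_, h2, h3, h4, h5, _⟩
      exact ⟨⟨h2, h3⟩, h4, h5⟩
    · rintro ⟨⟨h2, h3⟩, h4, h5⟩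
      have hcop30 : Nat.Coprime p 30 := by
        rw [Nat.Prime.coprime_iff_not_dvd h4]
        intro hdvd
        have := Nat.le_of_dvd (by norm_num) hdvd
        omega
      obtain ⟨x, y, z, w, h6, h7⟩ := Pool.Agent.H141R2.FS.rep hn4 hcop30 ((y1 p).2 h2) ((x1 p).2 h3)
      have h8 : p ≤ p ^ 2 := Nat.le_self_pow (by norm_num) p
      have h9 := (x1 p).2 h3
      exact ⟨by omega, h2, h3, h4, h5, x, y, z, w, h6, h7.symm⟩
  have h2 : Pool.Agent.H560R3.GB.primeTuples a X = Pool.Agent.H560R3.GB.primeTuples a Y + count n a := by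
    rw [h1]
    unfold Pool.Agent.H560R3.GB.primeTuples
    rw [← card_union_of_disjoint, ← filter_union]
    · congr 2
      ext p
      rw [mem_union, mem_Icc, mem_Icc, mem_Ioc]
      omega
    · apply disjoint_filter_filter
      rw [disjoint_left]
      intro p hp1 hp2
      rw [mem_Icc] at hp1
      rw [mem_Ioc] at hp2
      omega
  rw [h2]
  push_cast
  ring

/-- from the formula up to `X` and up to `Y` to the window -/
lemma window (s : ℕ) (ε : ℝ) (hε : 0 < ε) : ∃ n₀ : ℕ, ∀ n : ℕ, n₀ ≤ n → ¬ 4 ∣ n → ∀ a : Fin s → ℕ, ∀ U : ℕ,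
    HLs (ε / 400) U (Nat.sqrt (30 * n)) a → HLs (ε / 400) U (Nat.sqrt (29 * n - 1)) a → Formula ε n a := by
  obtain ⟨d1, d2, d3, d4, d5⟩ := sqrt_diff
  obtain ⟨δ, hδ⟩ : ∃ δ, δ = min (ε / 100) 1 := ⟨_, rfl⟩
  have hδ0 : 0 < δ := by rw [hδ]; exact lt_min (by linarith) one_pos
  have hδ1 : δ ≤ 1 := by rw [hδ]; exact min_le_right _ _
  have hδε : δ ≤ ε / 100 := by rw [hδ]; exact min_le_left _ _
  obtain ⟨T₁, hT₁⟩ := main_term (s + 1) (√30) δ d5 d2 hδ0
  obtain ⟨T₂, hT₂⟩ := main_term (s + 1) (√29) δ d3 d4 hδ0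
  have hev : ∀ᶠ n : ℕ in Filter.atTop, max T₁ T₂ ≤ √(n : ℝ) ∧ 3 ≤ √(n : ℝ) := by
    have e1 : Filter.Tendsto (fun n : ℕ => √(n : ℝ)) Filter.atTop Filter.atTop :=
      Real.tendsto_sqrt_atTop.comp tendsto_natCast_atTop_atTop
    exact (e1.eventually_ge_atTop _).and (e1.eventually_ge_atTop _)
  obtain ⟨n₁, hn₁⟩ := Filter.eventually_atTop.mp hev
  refine ⟨n₁ + 100, fun n hn hn4 a U hX hY => ?_⟩
  obtain ⟨g1, g2⟩ := hn₁ n (by omega)
  obtain ⟨X, hXd⟩ : ∃ X, X = Nat.sqrt (30 * n) := ⟨_, rfl⟩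
  obtain ⟨Y, hYd⟩ : ∃ Y, Y = Nat.sqrt (29 * n - 1) := ⟨_, rfl⟩
  rw [← hXd] at hX
  rw [← hYd] at hY
  obtain ⟨S, hS1, _, hS3⟩ := hX
  obtain ⟨S', hS1', _, hS3'⟩ := hY
  have hSS : S' = S := tendsto_nhds_unique hS1' hS1
  rw [hSS] at hS3'
  have hS1'' : Filter.Tendsto (sing a) Filter.atTop (nhds S) := by
    have := hS1
    rw [← sing_eq a]
    exact this
  refine ⟨S, hS1'', fun hadm => ?_⟩
  obtain ⟨hSpos, hPX⟩ := hS3 (adm_of a hadm)
  obtain ⟨_, hPY⟩ := hS3' (adm_of a hadm)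
  refine ⟨hSpos, ?_⟩
  rw [count_eq n hn4 (by omega) a X Y hXd hYd]
  obtain ⟨u, hu⟩ : ∃ u, u = √(n : ℝ) := ⟨_, rfl⟩
  have e30 : √(30 * (n : ℝ)) = √30 * u := by rw [hu, Real.sqrt_mul (by norm_num)]
  have e29 : √(29 * (n : ℝ)) = √29 * u := by rw [hu, Real.sqrt_mul (by norm_num)]
  rw [← hu] at g1 g2
  have hu0 : 0 < u := by linarith
  have huu : u * u = n := by rw [hu]; exact Real.mul_self_sqrt (Nat.cast_nonneg n)
  have hXr : |(X : ℝ) - √30 * u| ≤ 2 := by
    have a1 : X ^ 2 ≤ 30 * n := by rw [hXd]; exact Nat.sqrt_le' _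
    have a2 : 30 * n < (X + 1) ^ 2 := by rw [hXd]; exact Nat.lt_succ_sqrt' _
    have b1 : (X : ℝ) ^ 2 ≤ 30 * n := by exact_mod_cast a1
    have b2 : 30 * (n : ℝ) < ((X : ℝ) + 1) ^ 2 := by exact_mod_cast a2
    have c1 : (X : ℝ) ≤ √(30 * (n : ℝ)) := Real.le_sqrt_of_sq_le b1
    have c2 : √(30 * (n : ℝ)) < (X : ℝ) + 1 := (Real.sqrt_lt' (by positivity)).2 b2
    rw [e30] at c1 c2
    rw [abs_le]
    constructor <;> linarith
  have hYr : |(Y : ℝ) - √29 * u| ≤ 2 := by
    have a1 : Y ^ 2 ≤ 29 * n := (by rw [hYd]; exact Nat.sqrt_le' _ : Y ^ 2 ≤ 29 * n - 1).trans (Nat.sub_le _ _)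
    have a2 : 29 * n ≤ (Y + 1) ^ 2 := by
      have : 29 * n - 1 < (Y + 1) ^ 2 := by rw [hYd]; exact Nat.lt_succ_sqrt' _
      omega
    have b1 : (Y : ℝ) ^ 2 ≤ 29 * n := by exact_mod_cast a1
    have b2 : 29 * (n : ℝ) ≤ ((Y : ℝ) + 1) ^ 2 := by exact_mod_cast a2
    have c1 : (Y : ℝ) ≤ √(29 * (n : ℝ)) := Real.le_sqrt_of_sq_le b1
    have c2 : √(29 * (n : ℝ)) ≤ (Y : ℝ) + 1 := (Real.sqrt_le_left (by positivity : (0 : ℝ) ≤ (Y : ℝ) + 1)).2 b2
    rw [e29] at c1 c2
    rw [abs_le]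
    constructor <;> linarith
  have m1 := hT₁ u X ((le_max_left _ _).trans g1) hXr
  have m2 := hT₂ u Y ((le_max_right _ _).trans g1) hYr
  have hlu : 0 < Real.log u := Real.log_pos (by linarith)
  obtain ⟨D, hD⟩ : ∃ D, D = u / Real.log u ^ (s + 1) := ⟨_, rfl⟩
  have hD0 : 0 < D := by rw [hD]; positivity
  have eE : (√(30 * (n : ℝ)) - √(29 * (n : ℝ))) / Real.log √(n : ℝ) ^ (s + 1) = (√30 - √29) * D := by
    rw [e30, e29, ← hu, hD]
    ring
  rw [eE]
  rw [← hD] at m1 m2
  obtain ⟨x1, hx1⟩ : ∃ x1, x1 = (X : ℝ) / Real.log X ^ (s + 1) := ⟨_, rfl⟩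
  obtain ⟨y1, hy1⟩ : ∃ y1, y1 = (Y : ℝ) / Real.log Y ^ (s + 1) := ⟨_, rfl⟩
  rw [← hx1] at m1 hPX
  rw [← hy1] at m2 hPY
  rw [abs_le] at m1 m2
  have hδD : δ * D ≤ 1 * D := mul_le_mul_of_nonneg_right hδ1 hD0.le
  have h30D : √30 * D ≤ 6 * D := mul_le_mul_of_nonneg_right d2 hD0.le
  have h29D : √29 * D ≤ 6 * D := mul_le_mul_of_nonneg_right d4 hD0.le
  have hx7 : x1 ≤ 7 * D := by linarith [m1.2]
  have hy7 : y1 ≤ 7 * D := by linarith [m2.2]
  have k1 : ε / 400 * (S * x1) ≤ ε / 400 * (S * (7 * D)) := by gcongr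
  have k2 : ε / 400 * (S * y1) ≤ ε / 400 * (S * (7 * D)) := by gcongr
  rw [abs_le] at hPX hPY
  have k3 : S * (x1 - √30 * D) ≤ S * (δ * D) := mul_le_mul_of_nonneg_left m1.2 hSpos.le
  have k4 : S * (-(δ * D)) ≤ S * (x1 - √30 * D) := mul_le_mul_of_nonneg_left m1.1 hSpos.le
  have k5 : S * (y1 - √29 * D) ≤ S * (δ * D) := mul_le_mul_of_nonneg_left m2.2 hSpos.le
  have k6 : S * (-(δ * D)) ≤ S * (y1 - √29 * D) := mul_le_mul_of_nonneg_left m2.1 hSpos.le
  have hSD : 0 < S * D := by positivity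
  have k7 : δ * (S * D) ≤ ε / 100 * (S * D) := mul_le_mul_of_nonneg_right hδε hSD.le
  have k8 : ε * (1 / 11) * (S * D) ≤ ε * (√30 - √29) * (S * D) := by
    apply mul_le_mul_of_nonneg_right _ hSD.le
    exact mul_le_mul_of_nonneg_left d1 hε.le
  have k9 : 0 < ε * (S * D) := by positivity
  rw [abs_le]
  constructor
  · linarith [hPX.1, hPY.2]
  · linarith [hPX.2, hPY.1]

/-! ### the theorem -/

open Classical in
/-- Let `s ≥ 1`, the bases `b_i ≥ 2`, `Δ`, `η > 0`, `M`, `r > 0`, `κ_i ≥ 1`, `B`, `U`, `W` and `ε > 0` be fixed and let `n` be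
large and not divisible by `4`. Let `b_i ^ (2 k_i) ≤ B n`, `n ≤ B b_i ^ (2 k_i)` and `c_i ^ 2 ≤ B n`. Let the `v_i < b_i ^ k_i`
be independent random integers whose digits have the Gibbs distributions of arbitrary interactions which are summable at each
position (with the bound `M`), with respect to arbitrary Markov random fields with flexible digits on graphs of positions with
degrees at most `Δ`. With a probability of at least `1 - 1 / log ^ U n` the formula of Hardy and Littlewood holds, up to the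
fraction `ε`, for the number of the primes `p` with `29 n ≤ p² ≤ 30 n`, `n = x² + y² + z² + w²`, `p = x + 2 y + 5 z`, and
`p + a_1, …, p + a_s` prime, for ALL shifts `a_i = c_i + κ_i v_i + t_i` with `0 ≤ t_i ≤ log ^ W n`. -/
theorem result (s : ℕ) (hs : 1 ≤ s) (b : Fin s → ℕ) (hb : ∀ i, 2 ≤ b i) (Δ : ℕ) (η : ℝ) (hη : 0 < η) (M r : ℝ) (hr : 0 < r)
    (κ : Fin s → ℕ) (hκ : ∀ i, 1 ≤ κ i) (B U W : ℕ) (ε : ℝ) (hε : 0 < ε) :
    ∃ n₀ : ℕ, ∀ n : ℕ, n₀ ≤ n → ¬ 4 ∣ n → ∀ k : Fin s → ℕ, (∀ i, (b i ^ k i) ^ 2 ≤ B * n) → (∀ i, n ≤ B * (b i ^ k i) ^ 2) →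
    ∀ (A : Fin s → ℕ → ℕ → Prop) (q : Fin s → ℕ → ℝ), (∀ i, RandomField (b i) (k i) Δ η (A i) (q i)) →
    ∀ (φ : Fin s → Finset ℕ → ℕ → ℝ) (N : Fin s → Finset ℕ → ℝ), (∀ i, Interaction (b i) (k i) M r (φ i) (N i)) →
    ∀ c : Fin s → ℕ, (∀ i, c i ^ 2 ≤ B * n) →
      ∑ v ∈ Fintype.piFinset (fun i => range (b i ^ k i)), (if ∀ t : Fin s → ℕ, (∀ i, (t i : ℝ) ≤ Real.log n ^ W) →
        Formula ε n (fun i => c i + κ i * v i + t i) then 0 else ∏ i, gibbs (b i) (k i) (q i) (φ i) (v i)) ≤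
      1 / Real.log n ^ U := by
  have hGood := fun i => Pool.Agent.H85G.gt_good (b i) Δ (hb i) η (max M 0) r hη (le_max_right _ _) hr
  obtain ⟨N₀, hN₀⟩ := Pool.Agent.H85G.good_shifts s hs b hb (fun i => Pool.Agent.H85G.GT (b i) Δ η (max M 0) r) hGood κ hκ
    (30 * (B + 1)) (U + 1) (W + 1) (ε / 400) (by positivity)
  obtain ⟨n₁, hn₁⟩ := window s ε hε
  have hev : ∀ᶠ n : ℕ in Filter.atTop, ((2 : ℝ) ^ (U + W + 3)) ≤ Real.log n := by
    exact (Real.tendsto_log_atTop.comp tendsto_natCast_atTop_atTop).eventually_ge_atTop _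
  obtain ⟨n₂, hn₂⟩ := Filter.eventually_atTop.mp hev
  refine ⟨N₀ ^ 2 + n₁ + n₂ + 100, fun n hn hn4 k hk1 hk2 A q hq φ N hφ c hc => ?_⟩
  obtain ⟨p, hpd⟩ : ∃ p : Fin s → ℕ → ℝ, p = fun i => gibbs (b i) (k i) (q i) (φ i) := ⟨_, rfl⟩
  have hp : ∀ i, Pool.Agent.H85G.GT (b i) Δ η (max M 0) r (k i) (p i) := fun i => by
    rw [hpd]
    exact gt_conv (hb i) (hq i) (hφ i)
  have hp0 : ∀ i v, 0 ≤ p i v := fun i v => (hGood i).nonneg (k i) (p i) (hp i) v
  have hpe : ∀ v : Fin s → ℕ, ∏ i, gibbs (b i) (k i) (q i) (φ i) (v i) = ∏ i, p i (v i) := fun v => by rw [hpd]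
  simp only [hpe]
  have hP0 : ∀ v : Fin s → ℕ, 0 ≤ ∏ i, p i (v i) := fun v => prod_nonneg fun i _ => hp0 i _
  -- one of the two heights
  have hside : ∀ X : ℕ, n ≤ X ^ 2 → X ^ 2 ≤ 30 * n →
      ∑ v ∈ Fintype.piFinset (fun i => range (b i ^ k i)), (if ∀ t : Fin s → ℕ, (∀ i, (t i : ℝ) ≤ Real.log n ^ W) →
        HLs (ε / 400) (U + 1) X (fun i => c i + κ i * v i + t i) then 0 else ∏ i, p i (v i)) ≤
      (1 / 2) * (1 / Real.log n ^ U) := by
    intro X hX1 hX2
    have hXN : N₀ ≤ X := by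
      by_contra hcon
      have e1 : X ^ 2 < N₀ ^ 2 := Nat.pow_lt_pow_left (by omega) (by norm_num)
      omega
    have hsq : ∀ x y : ℕ, x ^ 2 ≤ y ^ 2 → x ≤ y := fun x y h => (Nat.pow_le_pow_iff_left (by norm_num)).1 h
    have h1 := hN₀ X hXN k (fun i => hsq _ _ ?_) (fun i => hsq _ _ ?_) p hp c (fun i => hsq _ _ ?_)
    · have hln := hn₂ n (by omega)
      have hX0 : (0 : ℝ) < X := by
        have : 0 < X := by
          rcases Nat.eq_zero_or_pos X with h | h
          · rw [h] at hX1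
            omega
          · exact h
        exact_mod_cast this
      have hlog : Real.log n ≤ 2 * Real.log X := by
        have e1 : (n : ℝ) ≤ (X : ℝ) ^ 2 := by exact_mod_cast hX1
        have e2 : Real.log n ≤ Real.log ((X : ℝ) ^ 2) := Real.log_le_log (by exact_mod_cast (by omega : 0 < n)) e1
        rw [Real.log_pow] at e2
        exact_mod_cast e2
      have hlX : (2 : ℝ) ^ (U + W + 2) ≤ Real.log X := by
        have e3 : (2 : ℝ) ^ (U + W + 3) = 2 * 2 ^ (U + W + 2) := by rw [pow_succ]; ring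
        rw [e3] at hln
        linarith
      have hlX1 : 1 ≤ Real.log X := (one_le_pow₀ (by norm_num)).trans hlX
      have hln0 : 0 < Real.log (n : ℝ) := lt_of_lt_of_le (by positivity) hln
      have hW : Real.log n ^ W ≤ Real.log X ^ (W + 1) := by
        calc Real.log n ^ W ≤ (2 * Real.log X) ^ W := pow_le_pow_left₀ hln0.le hlog W
          _ = 2 ^ W * Real.log X ^ W := by rw [mul_pow]
          _ ≤ Real.log X * Real.log X ^ W := by
              apply mul_le_mul_of_nonneg_right _ (by positivity)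
              exact (pow_le_pow_right₀ (by norm_num) (by omega)).trans hlX
          _ = _ := by rw [pow_succ]; ring
      have hU : 1 / Real.log X ^ (U + 1) ≤ (1 / 2) * (1 / Real.log n ^ U) := by
        have e4 : Real.log n ^ U ≤ 2 ^ U * Real.log X ^ U := by
          rw [← mul_pow]
          exact pow_le_pow_left₀ hln0.le hlog U
        have e5 : 2 * (2 : ℝ) ^ U ≤ Real.log X := by
          have : (2 : ℝ) * 2 ^ U = 2 ^ (U + 1) := by rw [pow_succ]; ring
          rw [this]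
          exact (pow_le_pow_right₀ (by norm_num) (by omega)).trans hlX
        rw [one_div_mul_one_div, div_le_div_iff₀ (by positivity) (by positivity), one_mul, one_mul]
        calc 2 * Real.log n ^ U ≤ 2 * (2 ^ U * Real.log X ^ U) := by linarith
          _ = (2 * 2 ^ U) * Real.log X ^ U := by ring
          _ ≤ Real.log X * Real.log X ^ U := mul_le_mul_of_nonneg_right e5 (by positivity)
          _ = _ := by rw [pow_succ]; ring
      refine le_trans (sum_le_sum fun v _ => ?_) (h1.trans hU)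
      by_cases hv : ∀ t : Fin s → ℕ, (∀ i, (t i : ℝ) ≤ Real.log n ^ W) →
        HLs (ε / 400) (U + 1) X (fun i => c i + κ i * v i + t i)
      · rw [if_pos hv]
        split_ifs
        · exact le_rfl
        · exact hP0 v
      · rw [if_neg hv, if_neg]
        intro hcon
        exact hv fun t ht => hcon t fun i => (ht i).trans hW
    · calc (b i ^ k i) ^ 2 ≤ B * n := hk1 i
        _ ≤ B * X ^ 2 := Nat.mul_le_mul_left _ hX1
        _ ≤ (30 * (B + 1)) ^ 2 * X ^ 2 := Nat.mul_le_mul_right _ (by nlinarith)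
        _ = _ := by ring
    · calc X ^ 2 ≤ 30 * n := hX2
        _ ≤ 30 * (B * (b i ^ k i) ^ 2) := Nat.mul_le_mul_left _ (hk2 i)
        _ = (30 * B) * (b i ^ k i) ^ 2 := by ring
        _ ≤ (30 * (B + 1)) ^ 2 * (b i ^ k i) ^ 2 := Nat.mul_le_mul_right _ (by nlinarith)
        _ = _ := by ring
    · calc c i ^ 2 ≤ B * n := hc i
        _ ≤ B * X ^ 2 := Nat.mul_le_mul_left _ hX1
        _ ≤ (30 * (B + 1)) ^ 2 * X ^ 2 := Nat.mul_le_mul_right _ (by nlinarith)
        _ = _ := by ring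
  obtain ⟨X, hX⟩ : ∃ X, X = Nat.sqrt (30 * n) := ⟨_, rfl⟩
  obtain ⟨Y, hY⟩ : ∃ Y, Y = Nat.sqrt (29 * n - 1) := ⟨_, rfl⟩
  have hX2 : X ^ 2 ≤ 30 * n := by rw [hX]; exact Nat.sqrt_le' _
  have hY2 : Y ^ 2 ≤ 30 * n := (by rw [hY]; exact Nat.sqrt_le' _ : Y ^ 2 ≤ 29 * n - 1).trans (by omega)
  have hX1 : n ≤ X ^ 2 := by
    have e1 : 30 * n < (X + 1) ^ 2 := by rw [hX]; exact Nat.lt_succ_sqrt' _
    have e2 : 1 ≤ X := by
      by_contra hcon
      have : X = 0 := by omega
      rw [this] at e1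
      omega
    nlinarith
  have hY1 : n ≤ Y ^ 2 := by
    have e1 : 29 * n - 1 < (Y + 1) ^ 2 := by rw [hY]; exact Nat.lt_succ_sqrt' _
    have e0 : 29 * n ≤ (Y + 1) ^ 2 := by omega
    have e2 : 1 ≤ Y := by
      by_contra hcon
      have : Y = 0 := by omega
      rw [this] at e0
      omega
    nlinarith
  have hA := hside X hX1 hX2
  have hB := hside Y hY1 hY2
  have hfin : ∀ v : Fin s → ℕ, (if ∀ t : Fin s → ℕ, (∀ i, (t i : ℝ) ≤ Real.log n ^ W) →
        Formula ε n (fun i => c i + κ i * v i + t i) then 0 else ∏ i, p i (v i)) ≤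
      (if ∀ t : Fin s → ℕ, (∀ i, (t i : ℝ) ≤ Real.log n ^ W) →
        HLs (ε / 400) (U + 1) X (fun i => c i + κ i * v i + t i) then 0 else ∏ i, p i (v i)) +
      (if ∀ t : Fin s → ℕ, (∀ i, (t i : ℝ) ≤ Real.log n ^ W) →
        HLs (ε / 400) (U + 1) Y (fun i => c i + κ i * v i + t i) then 0 else ∏ i, p i (v i)) := by
    intro v
    by_cases h1 : ∀ t : Fin s → ℕ, (∀ i, (t i : ℝ) ≤ Real.log n ^ W) →
        HLs (ε / 400) (U + 1) X (fun i => c i + κ i * v i + t i)
    · by_cases h2 : ∀ t : Fin s → ℕ, (∀ i, (t i : ℝ) ≤ Real.log n ^ W) →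
        HLs (ε / 400) (U + 1) Y (fun i => c i + κ i * v i + t i)
      · rw [if_pos h1, if_pos h2, if_pos, add_zero]
        intro t ht
        have k1 := h1 t ht
        have k2 := h2 t ht
        rw [hX] at k1
        rw [hY] at k2
        exact hn₁ n (by omega) hn4 _ (U + 1) k1 k2
      · rw [if_pos h1, if_neg h2, zero_add]
        split_ifs
        · exact hP0 v
        · exact le_rfl
    · rw [if_neg h1]
      have h3 : 0 ≤ (if ∀ t : Fin s → ℕ, (∀ i, (t i : ℝ) ≤ Real.log n ^ W) →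
        HLs (ε / 400) (U + 1) Y (fun i => c i + κ i * v i + t i) then 0 else ∏ i, p i (v i)) := by
        split_ifs
        · exact le_rfl
        · exact hP0 v
      have h4 : (if ∀ t : Fin s → ℕ, (∀ i, (t i : ℝ) ≤ Real.log n ^ W) →
        Formula ε n (fun i => c i + κ i * v i + t i) then 0 else ∏ i, p i (v i)) ≤ ∏ i, p i (v i) := by
        split_ifs
        · exact hP0 v
        · exact le_rfl
      linarith
  refine (sum_le_sum fun v _ => hfin v).trans ?_
  rw [sum_add_distrib]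
  linarith

end Pool.Agent.Results.MP_40574a_nt.LongRangeGibbsQuadruples
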