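import Pool.Agent.H85G.S3
import Pool.Agent.N469.TL.Levels
import Pool.Agent.H141R2.FS.Main1

/-!
# Every large integer `n` not divisible by `4` is a sum of four squares whose linear form starts prime tuples: the shifts are
# near integers composed of few small primes

Method: the exponential sum over the integers composed of primes from a given set is large only near few rational numbers
with small denominators (`Pool.Agent.N469.SQ.exp_alt`, `sm_one`, library), so the prime tuples with such shifts can be counted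
(starting files, `Pool.Agent.N469.PT.ws_final`; `Pool.Agent.H85G.one_shifts`). Every `p` coprime to `30` in the window is
represented (starting files, `Pool.Agent.H141R2.FS.rep`). The lemmas on the window are those of `LongRangeGibbsQuadruples`.
-/

set_option autoImplicit false

namespace Pool.Agent.Results.MP_40574a_nt.SmoothQuadruples

open Finset

/-- The integers `1 ≤ v ≤ x` all of whose prime factors belong to `P`. -/
def composedOf (P : Finset ℕ) (x : ℕ) : Finset ℕ := (Icc 1 x).filter fun v => v.primeFactors ⊆ P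

/-- The `y`-smooth integers `1 ≤ v ≤ x`: the integers all of whose prime factors are at most `y`. -/
def smooth (y x : ℕ) : Finset ℕ := (Icc 1 x).filter fun v => ∀ p ∈ v.primeFactors, p ≤ y

/-- The number of the residues `r` modulo `ℓ` for which `ℓ` divides `r (r + a_1) ... (r + a_s)`, for primes `ℓ`. -/
def nu {s : ℕ} (a : Fin s → ℕ) (ℓ : ℕ) : ℕ := ((range ℓ).filter (fun r => ℓ ∣ r ∨ ∃ i, ℓ ∣ r + a i)).card

/-- The partial product of the singular series of Hardy and Littlewood over the primes `ℓ ≤ z`. -/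
noncomputable def sing {s : ℕ} (a : Fin s → ℕ) (z : ℕ) : ℝ :=
  ∏ ℓ ∈ (Icc 1 z).filter Nat.Prime, (1 - (nu a ℓ : ℝ) / ℓ) / (1 - 1 / (ℓ : ℝ)) ^ (s + 1)

/-- No prime `ℓ` divides `r (r + a_1) ... (r + a_s)` for all `r`. -/
def Admissible {s : ℕ} (a : Fin s → ℕ) : Prop := ∀ ℓ : ℕ, ℓ.Prime → ∃ r : ℕ, ¬ ℓ ∣ r ∧ ∀ i, ¬ ℓ ∣ r + a i

open Classical in
/-- The number of the primes `p` with `29 n ≤ p² ≤ 30 n` which have the form `p = x + 2 y + 5 z` for a representation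
`n = x² + y² + z² + w²` with natural numbers, and for which all the `p + a_i` are primes. -/
noncomputable def count {s : ℕ} (n : ℕ) (a : Fin s → ℕ) : ℕ :=
  ((range (30 * n + 1)).filter (fun p : ℕ => 29 * n ≤ p ^ 2 ∧ p ^ 2 ≤ 30 * n ∧ p.Prime ∧ (∀ i, (p + a i).Prime) ∧
    ∃ x y z w : ℕ, n = x ^ 2 + y ^ 2 + z ^ 2 + w ^ 2 ∧ p = x + 2 * y + 5 * z)).card

/-- The formula of Hardy and Littlewood with a relative error of at most `ε`: the singular series converges to some `S`, and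
if the shifts are admissible then `S > 0` and the number of the represented prime tuples is
`S (√(30 n) - √(29 n)) / log ^ (s + 1) √n` up to the fraction `ε`. -/
def Formula {s : ℕ} (ε : ℝ) (n : ℕ) (a : Fin s → ℕ) : Prop :=
  ∃ S : ℝ, Filter.Tendsto (sing a) Filter.atTop (nhds S) ∧ (Admissible a → 0 < S ∧
    |(count n a : ℝ) - S * ((√(30 * (n : ℝ)) - √(29 * (n : ℝ))) / Real.log √(n : ℝ) ^ (s + 1))| ≤
      ε * (S * ((√(30 * (n : ℝ)) - √(29 * (n : ℝ))) / Real.log √(n : ℝ) ^ (s + 1))))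

/-! ### the singular series of the starting files -/

open Pool.Agent.W93.TD (HLs)

lemma nu_eq {s : ℕ} (a : Fin s → ℕ) (ℓ : ℕ) : Pool.Agent.H373R2.T7.nuP (fun i => (a i : ℤ)) ℓ = nu a ℓ := by
  unfold Pool.Agent.H373R2.T7.nuP nu
  congr 1
  apply filter_congr
  intro r _
  have : ∀ i, ((ℓ : ℤ) ∣ (r : ℤ) + (a i : ℤ)) ↔ ℓ ∣ r + a i := fun i => by
    rw [← Nat.cast_add]
    exact Int.natCast_dvd_natCast
  simp only [this]

lemma sing_eq {s : ℕ} (a : Fin s → ℕ) : Pool.Agent.H373R2.T7.singZ (fun i => (a i : ℤ)) = sing a := by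
  funext z
  unfold Pool.Agent.H373R2.T7.singZ sing
  simp only [nu_eq]

lemma adm_of {s : ℕ} (a : Fin s → ℕ) (h : Admissible a) : Pool.Agent.H373R2.T7.Admissible (fun i => (a i : ℤ)) := by
  intro ℓ hℓ
  obtain ⟨r, h1, h2⟩ := h ℓ hℓ
  refine ⟨(r : ℤ), fun h3 => h1 (by exact_mod_cast h3), fun i h3 => h2 i ?_⟩
  have h3' : (ℓ : ℤ) ∣ (r : ℤ) + (a i : ℤ) := h3
  rw [← Nat.cast_add] at h3'
  exact Int.natCast_dvd_natCast.1 h3'

/-! ### the main term -/

lemma main_term (m : ℕ) (κ δ : ℝ) (h2 : 2 ≤ κ) (h6 : κ ≤ 6) (hδ : 0 < δ) : ∃ T : ℝ, ∀ u x : ℝ, T ≤ u → |x - κ * u| ≤ 2 →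
    |x / Real.log x ^ m - κ * (u / Real.log u ^ m)| ≤ δ * (u / Real.log u ^ m) := by
  obtain ⟨T₁, hT₁⟩ := Filter.eventually_atTop.mp (Real.tendsto_log_atTop.eventually_ge_atTop (1 + 72 * m / δ))
  refine ⟨max (max T₁ 2) (4 / δ), fun u x hu hx => ?_⟩
  have hu1 : T₁ ≤ u := (le_max_left _ _).trans ((le_max_left _ _).trans hu)
  have hu2 : 2 ≤ u := (le_max_right _ _).trans ((le_max_left _ _).trans hu)
  have hu3 : 4 / δ ≤ u := (le_max_right _ _).trans hu
  have hL := hT₁ u hu1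
  obtain ⟨L, hLdef⟩ : ∃ L, L = Real.log u := ⟨_, rfl⟩
  rw [← hLdef] at hL ⊢
  have hm0 : (0 : ℝ) ≤ m := Nat.cast_nonneg m
  have hL1 : 1 ≤ L := by
    have : 0 ≤ 72 * (m : ℝ) / δ := by positivity
    linarith
  have hLm : 72 * m / δ ≤ L := by linarith
  have hL0 : 0 < L := by linarith
  have hx' := hx
  rw [abs_le] at hx
  have hku : 2 * u ≤ κ * u := mul_le_mul_of_nonneg_right h2 (by linarith)
  have hku' : κ * u ≤ 6 * u := mul_le_mul_of_nonneg_right h6 (by linarith)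
  have hxu : u ≤ x := by linarith
  have hx7 : x ≤ 7 * u := by linarith
  have hx0 : 0 < x := by linarith
  have hlx1 : L ≤ Real.log x := by rw [hLdef]; exact Real.log_le_log (by linarith) hxu
  have hlx2 : Real.log x ≤ L + 6 := by
    have e1 : Real.log x ≤ Real.log (7 * u) := Real.log_le_log hx0 hx7
    rw [Real.log_mul (by norm_num) (by linarith)] at e1
    have e2 : Real.log 7 ≤ 7 - 1 := Real.log_le_sub_one_of_pos (by norm_num)
    linarith
  have hlx0 : 0 < Real.log x := by linarith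
  obtain ⟨ρ, hρ⟩ : ∃ ρ, ρ = L / Real.log x := ⟨_, rfl⟩
  have hρ0 : 0 < ρ := by rw [hρ]; positivity
  have hρ1 : ρ ≤ 1 := by rw [hρ, div_le_one hlx0]; exact hlx1
  have hρ2 : 1 - ρ ≤ 6 / L := by
    have e1 : 1 - ρ = (Real.log x - L) / Real.log x := by
      rw [hρ]
      field_simp
    rw [e1, div_le_div_iff₀ hlx0 hL0]
    calc (Real.log x - L) * L ≤ 6 * L := mul_le_mul_of_nonneg_right (by linarith) hL0.le
      _ ≤ 6 * Real.log x := by linarith
  have hb := one_add_mul_le_pow (a := ρ - 1) (by linarith) m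
  have e0 : (1 + (ρ - 1)) = ρ := by ring
  rw [e0] at hb
  have hρm : 1 - ρ ^ m ≤ m * (6 / L) := by
    have : (m : ℝ) * (1 - ρ) ≤ m * (6 / L) := mul_le_mul_of_nonneg_left hρ2 hm0
    linarith
  have hρm1 : ρ ^ m ≤ 1 := pow_le_one₀ hρ0.le hρ1
  have hρm0 : 0 ≤ ρ ^ m := by positivity
  have ex : x / Real.log x ^ m = x * ρ ^ m / L ^ m := by
    rw [hρ, div_pow]
    field_simp
  have e3 : x / Real.log x ^ m - κ * (u / L ^ m) = (x * ρ ^ m - κ * u) / L ^ m := by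
    rw [ex]
    ring
  have e4 : δ * (u / L ^ m) = δ * u / L ^ m := by ring
  rw [e3, e4, abs_div, abs_of_pos (by positivity : (0 : ℝ) < L ^ m)]
  apply div_le_div_of_nonneg_right _ (by positivity)
  have h4 : 4 ≤ δ * u := by
    rw [div_le_iff₀ hδ] at hu3
    linarith
  have h5 : (m : ℝ) * (6 / L) * (6 * u) ≤ δ * u / 2 := by
    rw [div_le_iff₀ hδ] at hLm
    have e5 : (m : ℝ) * (6 / L) * (6 * u) = (36 * m * u) / L := by ring
    have e6 : 72 * (m : ℝ) * u ≤ L * δ * u := mul_le_mul_of_nonneg_right hLm (by linarith)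
    rw [e5, div_le_iff₀ hL0]
    linarith
  have h7 : 0 ≤ 1 - ρ ^ m := by linarith
  have f1 : x * ρ ^ m - κ * u = (x - κ * u) * ρ ^ m - κ * u * (1 - ρ ^ m) := by ring
  have f2 : |(x - κ * u) * ρ ^ m| ≤ 2 * 1 := by
    rw [abs_mul, abs_of_nonneg hρm0]
    exact mul_le_mul hx' hρm1 hρm0 (by norm_num)
  rw [abs_le] at f2
  have f3 : κ * u * (1 - ρ ^ m) ≤ (6 * u) * (m * (6 / L)) := mul_le_mul hku' hρm h7 (by linarith)
  have f4 : 0 ≤ κ * u * (1 - ρ ^ m) := mul_nonneg (by linarith) h7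
  have f5 : (6 * u) * (m * (6 / L)) = (m : ℝ) * (6 / L) * (6 * u) := by ring
  rw [f1, abs_le]
  constructor
  · linarith [f2.1]
  · linarith [f2.2]

lemma sqrt_diff : (1 : ℝ) / 11 ≤ √30 - √29 ∧ √(30 : ℝ) ≤ 6 ∧ 2 ≤ √(29 : ℝ) ∧ √(29 : ℝ) ≤ 6 ∧ 2 ≤ √(30 : ℝ) := by
  have a1 : √(30 : ℝ) ≤ 11 / 2 := (Real.sqrt_le_left (by norm_num : (0 : ℝ) ≤ 11 / 2)).2 (by norm_num)
  have a2 : √(29 : ℝ) ≤ 11 / 2 := (Real.sqrt_le_left (by norm_num : (0 : ℝ) ≤ 11 / 2)).2 (by norm_num)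
  have a3 : 2 ≤ √(29 : ℝ) := Real.le_sqrt_of_sq_le (by norm_num)
  have a4 : 2 ≤ √(30 : ℝ) := Real.le_sqrt_of_sq_le (by norm_num)
  have e1 : √(30 : ℝ) * √30 = 30 := Real.mul_self_sqrt (by norm_num)
  have e2 : √(29 : ℝ) * √29 = 29 := Real.mul_self_sqrt (by norm_num)
  refine ⟨?_, by linarith, a3, by linarith, a4⟩
  have e3 : (√(30 : ℝ) - √29) * (√30 + √29) = 1 := by linear_combination e1 - e2
  have e4 : 0 < √(30 : ℝ) - √29 := by
    by_contra hcon
    have : (√(30 : ℝ) - √29) * (√30 + √29) ≤ 0 := mul_nonpos_of_nonpos_of_nonneg (by linarith) (by linarith)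
    linarith
  have e5 : (√(30 : ℝ) - √29) * (√30 + √29) ≤ (√30 - √29) * 11 := mul_le_mul_of_nonneg_left (by linarith) e4.le
  linarith

/-- the window of the primes -/
lemma count_eq {s : ℕ} (n : ℕ) (hn4 : ¬ 4 ∣ n) (hn : 100 ≤ n) (a : Fin s → ℕ) (X Y : ℕ) (hX : X = Nat.sqrt (30 * n))
    (hY : Y = Nat.sqrt (29 * n - 1)) :
    (count n a : ℝ) = (Pool.Agent.H560R3.GB.primeTuples a X : ℝ) - Pool.Agent.H560R3.GB.primeTuples a Y := by
  classical
  have x1 : ∀ p : ℕ, p ^ 2 ≤ 30 * n ↔ p ≤ X := fun p => by rw [hX]; exact Nat.le_sqrt'.symm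
  have y1 : ∀ p : ℕ, 29 * n ≤ p ^ 2 ↔ Y < p := by
    intro p
    rw [hY, Nat.sqrt_lt']
    omega
  have hYX : Y ≤ X := by
    rw [hX, hY]
    exact Nat.sqrt_le_sqrt (by omega)
  have hY2 : 50 ≤ Y := by
    by_contra hcon
    have := (y1 50).2 (by omega)
    omega
  have h1 : count n a = ((Ioc Y X).filter (fun p : ℕ => p.Prime ∧ ∀ i, (p + a i).Prime)).card := by
    unfold count
    congr 1
    ext p
    rw [mem_filter, mem_filter, mem_Ioc, mem_range, y1, x1]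
    constructor
    · rintro ⟨_, h2, h3, h4, h5, _⟩
      exact ⟨⟨h2, h3⟩, h4, h5⟩
    · rintro ⟨⟨h2, h3⟩, h4, h5⟩
      have hcop30 : Nat.Coprime p 30 := by
        rw [Nat.Prime.coprime_iff_not_dvd h4]
        intro hdvd
        have := Nat.le_of_dvd (by norm_num) hdvd
        omega
      obtain ⟨x, y, z, w, h6, h7⟩ := Pool.Agent.H141R2.FS.rep hn4 hcop30 ((y1 p).2 h2) ((x1 p).2 h3)
      have h8 : p ≤ p ^ 2 := Nat.le_self_pow (by norm_num) p
      have h9 := (x1 p).2 h3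
      exact ⟨by omega, h2, h3, h4, h5, x, y, z, w, h6, h7.symm⟩
  have h2 : Pool.Agent.H560R3.GB.primeTuples a X = Pool.Agent.H560R3.GB.primeTuples a Y + count n a := by
    rw [h1]
    unfold Pool.Agent.H560R3.GB.primeTuples
    rw [← card_union_of_disjoint, ← filter_union]
    · congr 2
      ext p
      rw [mem_union, mem_Icc, mem_Icc, mem_Ioc]
      omega
    · apply disjoint_filter_filter
      rw [disjoint_left]
      intro p hp1 hp2
      rw [mem_Icc] at hp1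
      rw [mem_Ioc] at hp2
      omega
  rw [h2]
  push_cast
  ring

/-- from the formula up to `X` and up to `Y` to the window -/
lemma window (s : ℕ) (ε : ℝ) (hε : 0 < ε) : ∃ n₀ : ℕ, ∀ n : ℕ, n₀ ≤ n → ¬ 4 ∣ n → ∀ a : Fin s → ℕ, ∀ U : ℕ,
    HLs (ε / 400) U (Nat.sqrt (30 * n)) a → HLs (ε / 400) U (Nat.sqrt (29 * n - 1)) a → Formula ε n a := by
  obtain ⟨d1, d2, d3, d4, d5⟩ := sqrt_diff
  obtain ⟨δ, hδ⟩ : ∃ δ, δ = min (ε / 100) 1 := ⟨_, rfl⟩
  have hδ0 : 0 < δ := by rw [hδ]; exact lt_min (by linarith) one_pos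
  have hδ1 : δ ≤ 1 := by rw [hδ]; exact min_le_right _ _
  have hδε : δ ≤ ε / 100 := by rw [hδ]; exact min_le_left _ _
  obtain ⟨T₁, hT₁⟩ := main_term (s + 1) (√30) δ d5 d2 hδ0
  obtain ⟨T₂, hT₂⟩ := main_term (s + 1) (√29) δ d3 d4 hδ0
  have hev : ∀ᶠ n : ℕ in Filter.atTop, max T₁ T₂ ≤ √(n : ℝ) ∧ 3 ≤ √(n : ℝ) := by
    have e1 : Filter.Tendsto (fun n : ℕ => √(n : ℝ)) Filter.atTop Filter.atTop :=
      Real.tendsto_sqrt_atTop.comp tendsto_natCast_atTop_atTop
    exact (e1.eventually_ge_atTop _).and (e1.eventually_ge_atTop _)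
  obtain ⟨n₁, hn₁⟩ := Filter.eventually_atTop.mp hev
  refine ⟨n₁ + 100, fun n hn hn4 a U hX hY => ?_⟩
  obtain ⟨g1, g2⟩ := hn₁ n (by omega)
  obtain ⟨X, hXd⟩ : ∃ X, X = Nat.sqrt (30 * n) := ⟨_, rfl⟩
  obtain ⟨Y, hYd⟩ : ∃ Y, Y = Nat.sqrt (29 * n - 1) := ⟨_, rfl⟩
  rw [← hXd] at hX
  rw [← hYd] at hY
  obtain ⟨S, hS1, _, hS3⟩ := hX
  obtain ⟨S', hS1', _, hS3'⟩ := hY
  have hSS : S' = S := tendsto_nhds_unique hS1' hS1
  rw [hSS] at hS3'
  have hS1'' : Filter.Tendsto (sing a) Filter.atTop (nhds S) := by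
    have := hS1
    rw [← sing_eq a]
    exact this
  refine ⟨S, hS1'', fun hadm => ?_⟩
  obtain ⟨hSpos, hPX⟩ := hS3 (adm_of a hadm)
  obtain ⟨_, hPY⟩ := hS3' (adm_of a hadm)
  refine ⟨hSpos, ?_⟩
  rw [count_eq n hn4 (by omega) a X Y hXd hYd]
  obtain ⟨u, hu⟩ : ∃ u, u = √(n : ℝ) := ⟨_, rfl⟩
  have e30 : √(30 * (n : ℝ)) = √30 * u := by rw [hu, Real.sqrt_mul (by norm_num)]
  have e29 : √(29 * (n : ℝ)) = √29 * u := by rw [hu, Real.sqrt_mul (by norm_num)]
  rw [← hu] at g1 g2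
  have hu0 : 0 < u := by linarith
  have huu : u * u = n := by rw [hu]; exact Real.mul_self_sqrt (Nat.cast_nonneg n)
  have hXr : |(X : ℝ) - √30 * u| ≤ 2 := by
    have a1 : X ^ 2 ≤ 30 * n := by rw [hXd]; exact Nat.sqrt_le' _
    have a2 : 30 * n < (X + 1) ^ 2 := by rw [hXd]; exact Nat.lt_succ_sqrt' _
    have b1 : (X : ℝ) ^ 2 ≤ 30 * n := by exact_mod_cast a1
    have b2 : 30 * (n : ℝ) < ((X : ℝ) + 1) ^ 2 := by exact_mod_cast a2
    have c1 : (X : ℝ) ≤ √(30 * (n : ℝ)) := Real.le_sqrt_of_sq_le b1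
    have c2 : √(30 * (n : ℝ)) < (X : ℝ) + 1 := (Real.sqrt_lt' (by positivity)).2 b2
    rw [e30] at c1 c2
    rw [abs_le]
    constructor <;> linarith
  have hYr : |(Y : ℝ) - √29 * u| ≤ 2 := by
    have a1 : Y ^ 2 ≤ 29 * n := (by rw [hYd]; exact Nat.sqrt_le' _ : Y ^ 2 ≤ 29 * n - 1).trans (Nat.sub_le _ _)
    have a2 : 29 * n ≤ (Y + 1) ^ 2 := by
      have : 29 * n - 1 < (Y + 1) ^ 2 := by rw [hYd]; exact Nat.lt_succ_sqrt' _
      omega
    have b1 : (Y : ℝ) ^ 2 ≤ 29 * n := by exact_mod_cast a1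
    have b2 : 29 * (n : ℝ) ≤ ((Y : ℝ) + 1) ^ 2 := by exact_mod_cast a2
    have c1 : (Y : ℝ) ≤ √(29 * (n : ℝ)) := Real.le_sqrt_of_sq_le b1
    have c2 : √(29 * (n : ℝ)) ≤ (Y : ℝ) + 1 := (Real.sqrt_le_left (by positivity : (0 : ℝ) ≤ (Y : ℝ) + 1)).2 b2
    rw [e29] at c1 c2
    rw [abs_le]
    constructor <;> linarith
  have m1 := hT₁ u X ((le_max_left _ _).trans g1) hXr
  have m2 := hT₂ u Y ((le_max_right _ _).trans g1) hYr
  have hlu : 0 < Real.log u := Real.log_pos (by linarith)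
  obtain ⟨D, hD⟩ : ∃ D, D = u / Real.log u ^ (s + 1) := ⟨_, rfl⟩
  have hD0 : 0 < D := by rw [hD]; positivity
  have eE : (√(30 * (n : ℝ)) - √(29 * (n : ℝ))) / Real.log √(n : ℝ) ^ (s + 1) = (√30 - √29) * D := by
    rw [e30, e29, ← hu, hD]
    ring
  rw [eE]
  rw [← hD] at m1 m2
  obtain ⟨x1, hx1⟩ : ∃ x1, x1 = (X : ℝ) / Real.log X ^ (s + 1) := ⟨_, rfl⟩
  obtain ⟨y1, hy1⟩ : ∃ y1, y1 = (Y : ℝ) / Real.log Y ^ (s + 1) := ⟨_, rfl⟩
  rw [← hx1] at m1 hPX
  rw [← hy1] at m2 hPY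
  rw [abs_le] at m1 m2
  have hδD : δ * D ≤ 1 * D := mul_le_mul_of_nonneg_right hδ1 hD0.le
  have h30D : √30 * D ≤ 6 * D := mul_le_mul_of_nonneg_right d2 hD0.le
  have h29D : √29 * D ≤ 6 * D := mul_le_mul_of_nonneg_right d4 hD0.le
  have hx7 : x1 ≤ 7 * D := by linarith [m1.2]
  have hy7 : y1 ≤ 7 * D := by linarith [m2.2]
  have k1 : ε / 400 * (S * x1) ≤ ε / 400 * (S * (7 * D)) := by gcongr
  have k2 : ε / 400 * (S * y1) ≤ ε / 400 * (S * (7 * D)) := by gcongr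
  rw [abs_le] at hPX hPY
  have k3 : S * (x1 - √30 * D) ≤ S * (δ * D) := mul_le_mul_of_nonneg_left m1.2 hSpos.le
  have k4 : S * (-(δ * D)) ≤ S * (x1 - √30 * D) := mul_le_mul_of_nonneg_left m1.1 hSpos.le
  have k5 : S * (y1 - √29 * D) ≤ S * (δ * D) := mul_le_mul_of_nonneg_left m2.2 hSpos.le
  have k6 : S * (-(δ * D)) ≤ S * (y1 - √29 * D) := mul_le_mul_of_nonneg_left m2.1 hSpos.le
  have hSD : 0 < S * D := by positivity
  have k7 : δ * (S * D) ≤ ε / 100 * (S * D) := mul_le_mul_of_nonneg_right hδε hSD.le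
  have k8 : ε * (1 / 11) * (S * D) ≤ ε * (√30 - √29) * (S * D) := by
    apply mul_le_mul_of_nonneg_right _ hSD.le
    exact mul_le_mul_of_nonneg_left d1 hε.le
  have k9 : 0 < ε * (S * D) := by positivity
  rw [abs_le]
  constructor
  · linarith [hPX.1, hPY.2]
  · linarith [hPX.2, hPY.1]

/-! ### the theorem -/

open Pool.Agent.N469.SQ (Sm sm_one)
open Pool.Agent.N469.SM (SS mem_SS card_SS_pos)

lemma composed_eq (P : Finset ℕ) (x : ℕ) : composedOf P x = SS P x := rfl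

open Classical in
lemma main (s : ℕ) (hs : 1 ≤ s) (κ : Fin s → ℕ) (hκ : ∀ i, 1 ≤ κ i) (B K U W : ℕ) (ε : ℝ) (hε : 0 < ε) (δ : ℝ) (hδ : 0 < δ) :
    ∃ n₀ : ℕ, ∀ n : ℕ, n₀ ≤ n → ¬ 4 ∣ n → ∀ x y : Fin s → ℕ, (∀ i, x i ^ 2 ≤ n) → (∀ i, n ≤ B * x i ^ 2) →
    (∀ i, 1 ≤ y i) → (∀ i, (y i : ℝ) ≤ Real.log n ^ K) → ∀ c : Fin s → ℕ, (∀ i, c i ^ 2 ≤ B * n) →
    ∀ P : Fin s → Finset ℕ, (∀ i, ∀ p ∈ P i, p.Prime ∧ p ≤ y i) →
    (∀ i, (y i : ℝ) ^ (1 / 2 + δ) * Real.log n ≤ (P i).card) →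
      (((Fintype.piFinset fun i => composedOf (P i) (x i)).filter fun v : Fin s → ℕ =>
        ¬ ∀ t : Fin s → ℕ, (∀ i, (t i : ℝ) ≤ Real.log n ^ W) → Formula ε n (fun i => c i + κ i * v i + t i)).card : ℝ) ≤
      (∏ i, ((composedOf (P i) (x i)).card : ℝ)) / Real.log n ^ U := by
  obtain ⟨N₀, hN₀⟩ := Pool.Agent.H85G.one_shifts s hs (fun _ => Sm δ (30 * (B + 1)) (K + 1)) κ hκ
    (30 * (B + 1)) (U + 1) (W + 1) (ε / 400) (by positivity)
    (fun i Bc U => sm_one δ hδ (30 * (B + 1)) (K + 1) (κ i) (hκ i) Bc U)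
  obtain ⟨n₁, hn₁⟩ := window s ε hε
  have hev : ∀ᶠ n : ℕ in Filter.atTop, ((2 : ℝ) ^ (U + W + K + 3)) ≤ Real.log n := by
    exact (Real.tendsto_log_atTop.comp tendsto_natCast_atTop_atTop).eventually_ge_atTop _
  obtain ⟨n₂, hn₂⟩ := Filter.eventually_atTop.mp hev
  refine ⟨N₀ ^ 2 + n₁ + n₂ + 100, fun n hn hn4 x y hx1 hx2 hy1 hyK c hc P hP hPc => ?_⟩
  have hx0 : ∀ i, 1 ≤ x i := by
    intro i
    rcases Nat.eq_zero_or_pos (x i) with h | h
    · have := hx2 i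
      rw [h] at this
      omega
    · exact h
  have hS : ∀ i, (0 : ℝ) < ((SS (P i) (x i)).card : ℝ) := fun i => by exact_mod_cast card_SS_pos (P i) (hx0 i)
  obtain ⟨p, hpd⟩ : ∃ p : Fin s → ℕ → ℝ, p = fun i _ => 1 / ((SS (P i) (x i)).card : ℝ) := ⟨_, rfl⟩
  have hP0 : ∀ v : Fin s → ℕ, 0 ≤ ∏ i, p i (v i) := fun v => prod_nonneg fun i _ => by
    rw [hpd]
    have := hS i
    positivity
  have hPv : ∀ v : Fin s → ℕ, ∏ i, p i (v i) = 1 / ∏ i, ((SS (P i) (x i)).card : ℝ) := fun v => by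
    rw [hpd]
    simp only [one_div, prod_inv_distrib]
  -- one of the two heights
  have hside : ∀ X : ℕ, n ≤ X ^ 2 → X ^ 2 ≤ 30 * n →
      ∑ v ∈ Fintype.piFinset (fun i => SS (P i) (x i)), (if ∀ t : Fin s → ℕ, (∀ i, (t i : ℝ) ≤ Real.log n ^ W) →
        HLs (ε / 400) (U + 1) X (fun i => c i + κ i * v i + t i) then 0 else ∏ i, p i (v i)) ≤
      (1 / 2) * (1 / Real.log n ^ U) := by
    intro X hX1 hX2
    have hXN : N₀ ≤ X := by
      by_contra hcon
      have e1 : X ^ 2 < N₀ ^ 2 := Nat.pow_lt_pow_left (by omega) (by norm_num)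
      omega
    have hsq : ∀ x y : ℕ, x ^ 2 ≤ y ^ 2 → x ≤ y := fun x y h => (Nat.pow_le_pow_iff_left (by norm_num)).1 h
    have hln := hn₂ n (by omega)
    have hX0 : (0 : ℝ) < X := by
      have : 0 < X := by
        rcases Nat.eq_zero_or_pos X with h | h
        · rw [h] at hX1
          omega
        · exact h
      exact_mod_cast this
    have hlog : Real.log n ≤ 2 * Real.log X := by
      have e1 : (n : ℝ) ≤ (X : ℝ) ^ 2 := by exact_mod_cast hX1
      have e2 : Real.log n ≤ Real.log ((X : ℝ) ^ 2) := Real.log_le_log (by exact_mod_cast (by omega : 0 < n)) e1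
      rw [Real.log_pow] at e2
      exact_mod_cast e2
    have hlX : (2 : ℝ) ^ (U + W + K + 2) ≤ Real.log X := by
      have e3 : (2 : ℝ) ^ (U + W + K + 3) = 2 * 2 ^ (U + W + K + 2) := by rw [pow_succ]; ring
      rw [e3] at hln
      linarith
    have hlX1 : 1 ≤ Real.log X := (one_le_pow₀ (by norm_num)).trans hlX
    have hln0 : 0 < Real.log (n : ℝ) := lt_of_lt_of_le (by positivity) hln
    have hlogX : Real.log X ≤ Real.log n := by
      have e1 : X ≤ n := by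
        have e2 : X ^ 2 ≤ n ^ 2 := by nlinarith
        exact hsq _ _ e2
      exact Real.log_le_log hX0 (by exact_mod_cast e1)
    have hW : Real.log n ^ W ≤ Real.log X ^ (W + 1) := by
      calc Real.log n ^ W ≤ (2 * Real.log X) ^ W := pow_le_pow_left₀ hln0.le hlog W
        _ = 2 ^ W * Real.log X ^ W := by rw [mul_pow]
        _ ≤ Real.log X * Real.log X ^ W := by
            apply mul_le_mul_of_nonneg_right _ (by positivity)
            exact (pow_le_pow_right₀ (by norm_num) (by omega)).trans hlX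
        _ = _ := by rw [pow_succ]; ring
    have hK : Real.log n ^ K ≤ Real.log X ^ (K + 1) := by
      calc Real.log n ^ K ≤ (2 * Real.log X) ^ K := pow_le_pow_left₀ hln0.le hlog K
        _ = 2 ^ K * Real.log X ^ K := by rw [mul_pow]
        _ ≤ Real.log X * Real.log X ^ K := by
            apply mul_le_mul_of_nonneg_right _ (by positivity)
            exact (pow_le_pow_right₀ (by norm_num) (by omega)).trans hlX
        _ = _ := by rw [pow_succ]; ring
    have hU : 1 / Real.log X ^ (U + 1) ≤ (1 / 2) * (1 / Real.log n ^ U) := by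
      have e4 : Real.log n ^ U ≤ 2 ^ U * Real.log X ^ U := by
        rw [← mul_pow]
        exact pow_le_pow_left₀ hln0.le hlog U
      have e5 : 2 * (2 : ℝ) ^ U ≤ Real.log X := by
        have : (2 : ℝ) * 2 ^ U = 2 ^ (U + 1) := by rw [pow_succ]; ring
        rw [this]
        exact (pow_le_pow_right₀ (by norm_num) (by omega)).trans hlX
      rw [one_div_mul_one_div, div_le_div_iff₀ (by positivity) (by positivity), one_mul, one_mul]
      calc 2 * Real.log n ^ U ≤ 2 * (2 ^ U * Real.log X ^ U) := by linarith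
        _ = (2 * 2 ^ U) * Real.log X ^ U := by ring
        _ ≤ Real.log X * Real.log X ^ U := mul_le_mul_of_nonneg_right e5 (by positivity)
        _ = _ := by rw [pow_succ]; ring
    have h1 := hN₀ X hXN (fun i => SS (P i) (x i)) p (fun i => ?_) c (fun i => hsq _ _ ?_)
    · refine le_trans (sum_le_sum fun v _ => ?_) (h1.trans hU)
      by_cases hv : ∀ t : Fin s → ℕ, (∀ i, (t i : ℝ) ≤ Real.log n ^ W) →
        HLs (ε / 400) (U + 1) X (fun i => c i + κ i * v i + t i)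
      · rw [if_pos hv]
        split_ifs
        · exact le_rfl
        · exact hP0 v
      · rw [if_neg hv, if_neg]
        intro hcon
        exact hv fun t ht => hcon t fun i => (ht i).trans hW
    · refine ⟨P i, y i, x i, hsq _ _ ((hx1 i).trans hX1), hsq _ _ ?_, hP i, hy1 i, (hyK i).trans hK, ?_, rfl, by rw [hpd]⟩
      · calc X ^ 2 ≤ 30 * n := hX2
          _ ≤ 30 * (B * x i ^ 2) := Nat.mul_le_mul_left _ (hx2 i)
          _ = (30 * B) * x i ^ 2 := by ring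
          _ ≤ (30 * (B + 1)) ^ 2 * x i ^ 2 := Nat.mul_le_mul_right _ (by nlinarith)
          _ = _ := by ring
      · refine le_trans ?_ (hPc i)
        exact mul_le_mul_of_nonneg_left hlogX (by positivity)
    · calc c i ^ 2 ≤ B * n := hc i
        _ ≤ B * X ^ 2 := Nat.mul_le_mul_left _ hX1
        _ ≤ (30 * (B + 1)) ^ 2 * X ^ 2 := Nat.mul_le_mul_right _ (by nlinarith)
        _ = _ := by ring
  obtain ⟨X, hX⟩ : ∃ X, X = Nat.sqrt (30 * n) := ⟨_, rfl⟩
  obtain ⟨Y, hY⟩ : ∃ Y, Y = Nat.sqrt (29 * n - 1) := ⟨_, rfl⟩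
  have hX2 : X ^ 2 ≤ 30 * n := by rw [hX]; exact Nat.sqrt_le' _
  have hY2 : Y ^ 2 ≤ 30 * n := (by rw [hY]; exact Nat.sqrt_le' _ : Y ^ 2 ≤ 29 * n - 1).trans (by omega)
  have hX1 : n ≤ X ^ 2 := by
    have e1 : 30 * n < (X + 1) ^ 2 := by rw [hX]; exact Nat.lt_succ_sqrt' _
    have e2 : 1 ≤ X := by
      by_contra hcon
      have : X = 0 := by omega
      rw [this] at e1
      omega
    nlinarith
  have hY1 : n ≤ Y ^ 2 := by
    have e1 : 29 * n - 1 < (Y + 1) ^ 2 := by rw [hY]; exact Nat.lt_succ_sqrt' _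
    have e0 : 29 * n ≤ (Y + 1) ^ 2 := by omega
    have e2 : 1 ≤ Y := by
      by_contra hcon
      have : Y = 0 := by omega
      rw [this] at e0
      omega
    nlinarith
  have hA := hside X hX1 hX2
  have hB := hside Y hY1 hY2
  have hfin : ∀ v : Fin s → ℕ, (if ∀ t : Fin s → ℕ, (∀ i, (t i : ℝ) ≤ Real.log n ^ W) →
        Formula ε n (fun i => c i + κ i * v i + t i) then 0 else ∏ i, p i (v i)) ≤
      (if ∀ t : Fin s → ℕ, (∀ i, (t i : ℝ) ≤ Real.log n ^ W) →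
        HLs (ε / 400) (U + 1) X (fun i => c i + κ i * v i + t i) then 0 else ∏ i, p i (v i)) +
      (if ∀ t : Fin s → ℕ, (∀ i, (t i : ℝ) ≤ Real.log n ^ W) →
        HLs (ε / 400) (U + 1) Y (fun i => c i + κ i * v i + t i) then 0 else ∏ i, p i (v i)) := by
    intro v
    by_cases h1 : ∀ t : Fin s → ℕ, (∀ i, (t i : ℝ) ≤ Real.log n ^ W) →
        HLs (ε / 400) (U + 1) X (fun i => c i + κ i * v i + t i)
    · by_cases h2 : ∀ t : Fin s → ℕ, (∀ i, (t i : ℝ) ≤ Real.log n ^ W) →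
        HLs (ε / 400) (U + 1) Y (fun i => c i + κ i * v i + t i)
      · rw [if_pos h1, if_pos h2, if_pos, add_zero]
        intro t ht
        have k1 := h1 t ht
        have k2 := h2 t ht
        rw [hX] at k1
        rw [hY] at k2
        exact hn₁ n (by omega) hn4 _ (U + 1) k1 k2
      · rw [if_pos h1, if_neg h2, zero_add]
        split_ifs
        · exact hP0 v
        · exact le_rfl
    · rw [if_neg h1]
      have h3 : 0 ≤ (if ∀ t : Fin s → ℕ, (∀ i, (t i : ℝ) ≤ Real.log n ^ W) →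
        HLs (ε / 400) (U + 1) Y (fun i => c i + κ i * v i + t i) then 0 else ∏ i, p i (v i)) := by
        split_ifs
        · exact le_rfl
        · exact hP0 v
      have h4 : (if ∀ t : Fin s → ℕ, (∀ i, (t i : ℝ) ≤ Real.log n ^ W) →
        Formula ε n (fun i => c i + κ i * v i + t i) then 0 else ∏ i, p i (v i)) ≤ ∏ i, p i (v i) := by
        split_ifs
        · exact hP0 v
        · exact le_rfl
      linarith
  have htot : ∑ v ∈ Fintype.piFinset (fun i => SS (P i) (x i)), (if ∀ t : Fin s → ℕ, (∀ i, (t i : ℝ) ≤ Real.log n ^ W) →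
        Formula ε n (fun i => c i + κ i * v i + t i) then 0 else ∏ i, p i (v i)) ≤ 1 / Real.log n ^ U := by
    refine (sum_le_sum fun v _ => hfin v).trans ?_
    rw [sum_add_distrib]
    linarith
  have hprod : (0 : ℝ) < ∏ i, ((SS (P i) (x i)).card : ℝ) := prod_pos fun i _ => hS i
  simp only [hPv, composed_eq] at htot ⊢
  rw [div_eq_mul_one_div]
  have e5 : ((((Fintype.piFinset fun i => SS (P i) (x i)).filter fun v : Fin s → ℕ =>
        ¬ ∀ t : Fin s → ℕ, (∀ i, (t i : ℝ) ≤ Real.log n ^ W) → Formula ε n (fun i => c i + κ i * v i + t i)).card : ℝ)) =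
      (∏ i, ((SS (P i) (x i)).card : ℝ)) * ∑ v ∈ Fintype.piFinset (fun i => SS (P i) (x i)),
        (if ∀ t : Fin s → ℕ, (∀ i, (t i : ℝ) ≤ Real.log n ^ W) →
        Formula ε n (fun i => c i + κ i * v i + t i) then 0 else 1 / ∏ i, ((SS (P i) (x i)).card : ℝ)) := by
    rw [card_filter, mul_sum]
    push_cast
    refine sum_congr rfl fun v _ => ?_
    by_cases h : ∀ t : Fin s → ℕ, (∀ i, (t i : ℝ) ≤ Real.log n ^ W) → Formula ε n (fun i => c i + κ i * v i + t i)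
    · rw [if_neg (not_not.2 h), if_pos h, mul_zero]
    · rw [if_pos h, if_neg h]
      field_simp
  rw [e5]
  exact mul_le_mul_of_nonneg_left htot hprod.le

open Classical in
/-- Let `s ≥ 1`, `κ_i ≥ 1`, `B`, `K`, `U`, `W`, `ε > 0` and `δ > 0` be fixed. EVERY large `n` which is not divisible by `4` has
the following property. For `i < s` let `x_i² ≤ n ≤ B x_i²`, `1 ≤ y_i ≤ log ^ K n` and `c_i² ≤ B n`.

(1) Let `P_i` be arbitrary sets of primes which are at most `y_i`, with at least `y_i ^ (1 / 2 + δ) log n` elements. Then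
all the vectors `(v_1, ..., v_s)` of integers `v_i ≤ x_i` composed of primes from `P_i`, up to a proportion of at most
`1 / log ^ U n` of them, have the following property: for ALL the shifts `a_i = c_i + κ_i v_i + t_i`, `0 ≤ t_i ≤ log ^ W n`,
the singular series converges to some `S`, and, if the shifts are admissible, `S > 0` and the number of the primes `p` with
`29 n ≤ p² ≤ 30 n` of the form `p = x + 2 y + 5 z`, where `n = x² + y² + z² + w²`, for which all the `p + a_i` are primes is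
`S (√(30 n) - √(29 n)) / log ^ (s + 1) √n` up to the fraction `ε`. (There can be as few as about `x_i ^ (1 / 2 + δ)` such
integers `v_i`.)

(2) In particular this holds for all the vectors of `y_i`-smooth integers `v_i ≤ x_i`, up to a proportion of at most
`1 / log ^ U n` of them, if `y_i ≥ log ^ (2 + δ) n`. -/
theorem result (s : ℕ) (hs : 1 ≤ s) (κ : Fin s → ℕ) (hκ : ∀ i, 1 ≤ κ i) (B K U W : ℕ) (ε : ℝ) (hε : 0 < ε) (δ : ℝ) (hδ : 0 < δ) :
    ∃ n₀ : ℕ, ∀ n : ℕ, n₀ ≤ n → ¬ 4 ∣ n → ∀ x y : Fin s → ℕ, (∀ i, x i ^ 2 ≤ n) → (∀ i, n ≤ B * x i ^ 2) →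
    (∀ i, 1 ≤ y i) → (∀ i, (y i : ℝ) ≤ Real.log n ^ K) → ∀ c : Fin s → ℕ, (∀ i, c i ^ 2 ≤ B * n) →
    (∀ P : Fin s → Finset ℕ, (∀ i, ∀ p ∈ P i, p.Prime ∧ p ≤ y i) →
      (∀ i, (y i : ℝ) ^ (1 / 2 + δ) * Real.log n ≤ (P i).card) →
        (((Fintype.piFinset fun i => composedOf (P i) (x i)).filter fun v : Fin s → ℕ =>
          ¬ ∀ t : Fin s → ℕ, (∀ i, (t i : ℝ) ≤ Real.log n ^ W) → Formula ε n (fun i => c i + κ i * v i + t i)).card : ℝ) ≤
        (∏ i, ((composedOf (P i) (x i)).card : ℝ)) / Real.log n ^ U) ∧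
    ((∀ i, Real.log n ^ (2 + δ) ≤ y i) →
        (((Fintype.piFinset fun i => smooth (y i) (x i)).filter fun v : Fin s → ℕ =>
          ¬ ∀ t : Fin s → ℕ, (∀ i, (t i : ℝ) ≤ Real.log n ^ W) → Formula ε n (fun i => c i + κ i * v i + t i)).card : ℝ) ≤
        (∏ i, ((smooth (y i) (x i)).card : ℝ)) / Real.log n ^ U) := by
  obtain ⟨δ', n1, hδ', h1⟩ := Pool.Agent.N469.SQ.PR_cond δ hδ
  obtain ⟨n2, h2⟩ := main s hs κ hκ B K U W ε hε δ hδ
  obtain ⟨n3, h3⟩ := main s hs κ hκ B K U W ε hε δ' hδ'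
  refine ⟨n1 + n2 + n3, fun n hn hn4 x y hx1 hx2 hy1 hyK c hc =>
    ⟨fun P hP hPc => h2 n (by omega) hn4 x y hx1 hx2 hy1 hyK c hc P hP hPc, fun hy => ?_⟩⟩
  have e1 : ∀ i, smooth (y i) (x i) = composedOf (Pool.Agent.N469.SQ.PR (y i)) (x i) :=
    fun i => Pool.Agent.N469.TL.smooth_eq (y i) (x i)
  simp only [e1]
  exact h3 n (by omega) hn4 x y hx1 hx2 hy1 hyK c hc (fun i => Pool.Agent.N469.SQ.PR (y i))
    (fun i p hp => Pool.Agent.N469.SQ.mem_PR.1 hp) (fun i => (h1 n (by omega) (y i) (hy i)).2)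

end Pool.Agent.Results.MP_40574a_nt.SmoothQuadruples
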